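import Pool.Agent.X321.HS.Base

set_option autoImplicit false

/-!
# Behaviour of rational functions over generalized power series near a radius
-/

namespace Pool.Agent.X321.HS

open Polynomial H39Gon Filter Topology

section asy

variable {K : Type} [Field K]

theorem lead_strict (γ : ℝ) (p : (LL K)[X]) (i : ℕ) (hi : p.coeff i ≠ 0)
    (h : ∀ j, j ≠ i → p.coeff j ≠ 0 →
      (p.coeff i).order + i * γ < (p.coeff j).order + j * γ) :
    (iotaP γ p).order = (p.coeff i).order + i * γ ∧
      (iotaP γ p).leadingCoeff =
        algebraMap K[X] (RatFunc K) (monomial i (p.coeff i).leadingCoeff) := by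
  obtain ⟨h1, h2, h3⟩ := lead γ p i hi (fun j hj => by
    by_cases hji : j = i
    · rw [hji]
    · exact (h j hji hj).le)
  refine ⟨h1, ?_⟩
  rw [h2]
  congr 1
  ext j
  rw [coeff_monomial]
  split_ifs with hji
  · rw [← hji, h3]
  · rw [cf_coeff]
    by_cases hj : p.coeff j = 0
    · rw [hj, HahnSeries.coeff_zero]
    · apply HahnSeries.coeff_eq_zero_of_lt_order
      have := h j (Ne.symm hji) hj
      linarith

theorem ev_dom (γ0 : ℝ) (p : (LL K)[X]) (i : ℕ)
    (h : ∀ j, p.coeff j ≠ 0 → (p.coeff i).order + i * γ0 ≤ (p.coeff j).order + j * γ0)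
    (h' : ∀ j < i, p.coeff j ≠ 0 →
      (p.coeff i).order + i * γ0 < (p.coeff j).order + j * γ0) :
    ∀ᶠ γ in 𝓝[>] γ0, ∀ j ∈ p.support, j ≠ i →
      (p.coeff i).order + i * γ < (p.coeff j).order + j * γ := by
  refine (Filter.eventually_all_finset p.support).2 fun j hj => ?_
  rcases lt_trichotomy j i with hji | hji | hji
  · have h2 := h' j hji (mem_support_iff.1 hj)
    have h3 : ∀ᶠ γ in 𝓝 γ0, (p.coeff i).order + i * γ < (p.coeff j).order + j * γ := by
      refine ContinuousAt.eventually_lt ?_ ?_ h2 <;> fun_prop
    exact (h3.filter_mono nhdsWithin_le_nhds).mono fun γ hγ _ => hγ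
  · exact Filter.Eventually.of_forall fun γ hne => absurd hji hne
  · filter_upwards [self_mem_nhdsWithin] with γ hγ _
    have h2 := h j (mem_support_iff.1 hj)
    have h3 : (i : ℝ) < j := by exact_mod_cast hji
    have h4 : γ0 < γ := hγ
    nlinarith [mul_pos (sub_pos.2 h3) (sub_pos.2 h4)]

theorem ev_dom_top (p : (LL K)[X]) (i : ℕ) (h : ∀ j < i, p.coeff j = 0) :
    ∀ᶠ γ in atTop, ∀ j ∈ p.support, j ≠ i →
      (p.coeff i).order + i * γ < (p.coeff j).order + j * γ := by
  refine (Filter.eventually_all_finset p.support).2 fun j hj => ?_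
  rcases lt_trichotomy j i with hji | hji | hji
  · exact absurd (h j hji) (mem_support_iff.1 hj)
  · exact Filter.Eventually.of_forall fun γ hne => absurd hji hne
  · filter_upwards [eventually_gt_atTop (|(p.coeff i).order - (p.coeff j).order|)] with γ hγ _
    have h3 : (i : ℝ) + 1 ≤ j := by exact_mod_cast hji
    have h4 : (p.coeff i).order - (p.coeff j).order < γ := (le_abs_self _).trans_lt hγ
    have h5 : 0 < γ := (abs_nonneg _).trans_lt hγ
    nlinarith [mul_nonneg (sub_nonneg.2 h3) h5.le]

theorem quot {x y : LL (RatFunc K)} (hx : x ≠ 0) (hy : y ≠ 0) :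
    (x.order < y.order → pl (x / y) = none) ∧ (y.order < x.order → pl (x / y) = some 0) ∧
    (x.order = y.order → pl (x / y) = some (x.leadingCoeff / y.leadingCoeff)) := by
  have h := order_div hx hy
  refine ⟨fun h1 => pl_neg (by rw [h]; linarith), fun h1 => pl_pos (by rw [h]; linarith),
    fun h1 => ?_⟩
  rw [pl_unit (by rw [h]; linarith), lead_div hy]

theorem quotL {x y : LL K} (hx : x ≠ 0) (hy : y ≠ 0) :
    (x.order < y.order → pl (x / y) = none) ∧ (y.order < x.order → pl (x / y) = some 0) ∧
    (x.order = y.order → pl (x / y) = some (x.leadingCoeff / y.leadingCoeff)) := by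
  have h := order_div hx hy
  refine ⟨fun h1 => pl_neg (by rw [h]; linarith), fun h1 => pl_pos (by rw [h]; linarith),
    fun h1 => ?_⟩
  rw [pl_unit (by rw [h]; linarith), lead_div hy]

/-- the values at `u = 1` for radii slightly larger than `γ0` -/
theorem plus (x : P1 (RatFunc (LL K))) (γ0 : ℝ) : ∀ᶠ γ in 𝓝[>] γ0,
    spec K 1 (plP (x.map (iota γ))) = spec K 0 (plP (x.map (iota γ0))) := by
  cases x with
  | none => exact Filter.Eventually.of_forall fun _ => rfl
  | some f =>
    by_cases hf : f = 0
    · subst hf
      refine Filter.Eventually.of_forall fun γ => ?_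
      simp only [Option.map_some, map_zero, plP, pl_zero]
      rw [spec_some_zero, spec_some_zero]
    · set p := f.num with hpdef
      set q := f.denom with hqdef
      have hp : p ≠ 0 := RatFunc.num_ne_zero hf
      have hq : q ≠ 0 := f.denom_ne_zero
      have hfe : ∀ γ, plP ((some f : P1 (RatFunc (LL K))).map (iota γ)) =
          pl (iotaP γ p / iotaP γ q) := by
        intro γ
        rw [Option.map_some, plP, ← iota_div, RatFunc.num_div_denom]
      obtain ⟨i, hi, him, hil⟩ := exists_low γ0 p hp
      obtain ⟨j, hj, hjm, hjl⟩ := exists_low γ0 q hq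
      obtain ⟨p1, p2, p3⟩ := lead γ0 p i hi him
      obtain ⟨q1, q2, q3⟩ := lead γ0 q j hj hjm
      have hP : ∀ d < i, (cf γ0 p ((p.coeff i).order + i * γ0)).coeff d = 0 := by
        intro d hd
        rw [cf_coeff]
        by_cases h0 : p.coeff d = 0
        · rw [h0, HahnSeries.coeff_zero]
        · apply HahnSeries.coeff_eq_zero_of_lt_order
          have := hil d hd h0
          linarith
      have hQ : ∀ d < j, (cf γ0 q ((q.coeff j).order + j * γ0)).coeff d = 0 := by
        intro d hd
        rw [cf_coeff]
        by_cases h0 : q.coeff d = 0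
        · rw [h0, HahnSeries.coeff_zero]
        · apply HahnSeries.coeff_eq_zero_of_lt_order
          have := hjl d hd h0
          linarith
      have ha := HahnSeries.leadingCoeff_ne_zero.2 hi
      have hb := HahnSeries.leadingCoeff_ne_zero.2 hj
      obtain ⟨s1, s2, s3⟩ := spec_zero_of _ _ i j _ _ ha hb hP p3 hQ q3
      have e1 := ev_dom γ0 p i him hil
      have e2 := ev_dom γ0 q j hjm hjl
      obtain ⟨r1, r2, r3⟩ := quot (iotaP_ne γ0 p hp) (iotaP_ne γ0 q hq)
      rw [p1, q1] at r1 r2 r3
      rw [p2, q2] at r3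
      rw [hfe γ0]
      have key : ∀ γ, (∀ j ∈ p.support, j ≠ i →
            (p.coeff i).order + i * γ < (p.coeff j).order + j * γ) →
          (∀ i ∈ q.support, i ≠ j →
            (q.coeff j).order + j * γ < (q.coeff i).order + i * γ) →
          ((p.coeff i).order + i * γ < (q.coeff j).order + j * γ →
            pl (iotaP γ p / iotaP γ q) = none) ∧
          ((q.coeff j).order + j * γ < (p.coeff i).order + i * γ →
            pl (iotaP γ p / iotaP γ q) = some 0) ∧
          ((p.coeff i).order + i * γ = (q.coeff j).order + j * γ →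
            spec K 1 (pl (iotaP γ p / iotaP γ q)) =
              some ((p.coeff i).leadingCoeff / (q.coeff j).leadingCoeff)) := by
        intro γ h1 h2
        obtain ⟨a1, a2⟩ := lead_strict γ p i hi fun l hl h => h1 l (mem_support_iff.2 h) hl
        obtain ⟨b1, b2⟩ := lead_strict γ q j hj fun l hl h => h2 l (mem_support_iff.2 h) hl
        obtain ⟨c1, c2, c3⟩ := quot (iotaP_ne γ p hp) (iotaP_ne γ q hq)
        rw [a1, b1] at c1 c2 c3
        refine ⟨c1, c2, fun h => ?_⟩
        rw [c3 h, a2, b2, spec_one_mono _ _ hb]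
      rcases lt_trichotomy ((p.coeff i).order + i * γ0) ((q.coeff j).order + j * γ0) with
        ho | ho | ho
      · have e3 : ∀ᶠ γ in 𝓝[>] γ0,
            (p.coeff i).order + i * γ < (q.coeff j).order + j * γ := by
          have h3 : ∀ᶠ γ in 𝓝 γ0, (p.coeff i).order + i * γ < (q.coeff j).order + j * γ := by
            refine ContinuousAt.eventually_lt ?_ ?_ ho <;> fun_prop
          exact h3.filter_mono nhdsWithin_le_nhds
        filter_upwards [e1, e2, e3] with γ h1 h2 h3
        rw [hfe, (key γ h1 h2).1 h3, r1 ho]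
        rfl
      · rcases lt_trichotomy i j with hij | hij | hij
        · filter_upwards [e1, e2, self_mem_nhdsWithin] with γ h1 h2 h3
          have h4 : γ0 < γ := h3
          have h5 : (i : ℝ) < j := by exact_mod_cast hij
          rw [hfe, (key γ h1 h2).1 (by nlinarith [mul_pos (sub_pos.2 h5) (sub_pos.2 h4)]),
            r3 ho, s1 hij]
          rfl
        · filter_upwards [e1, e2] with γ h1 h2
          rw [hfe, (key γ h1 h2).2.2 (by rw [hij] at ho ⊢; linarith), r3 ho, s3 hij]
        · filter_upwards [e1, e2, self_mem_nhdsWithin] with γ h1 h2 h3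
          have h4 : γ0 < γ := h3
          have h5 : (j : ℝ) < i := by exact_mod_cast hij
          rw [hfe, (key γ h1 h2).2.1 (by nlinarith [mul_pos (sub_pos.2 h5) (sub_pos.2 h4)]),
            r3 ho, s2 hij, spec_some_zero]
      · have e3 : ∀ᶠ γ in 𝓝[>] γ0,
            (q.coeff j).order + j * γ < (p.coeff i).order + i * γ := by
          have h3 : ∀ᶠ γ in 𝓝 γ0, (q.coeff j).order + j * γ < (p.coeff i).order + i * γ := by
            refine ContinuousAt.eventually_lt ?_ ?_ ho <;> fun_prop
          exact h3.filter_mono nhdsWithin_le_nhds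
        filter_upwards [e1, e2, e3] with γ h1 h2 h3
        rw [hfe, (key γ h1 h2).2.1 h3, r2 ho, spec_some_zero, spec_some_zero]

/-- the values at `u = 1` for very large radii -/
theorem top (x : P1 (RatFunc (LL K))) : ∀ᶠ γ in atTop,
    spec K 1 (plP (x.map (iota γ))) = plP (spec (LL K) 0 x) := by
  cases x with
  | none => exact Filter.Eventually.of_forall fun _ => rfl
  | some f =>
    by_cases hf : f = 0
    · subst hf
      refine Filter.Eventually.of_forall fun γ => ?_
      rw [spec_some_zero]
      simp only [Option.map_some, map_zero, plP, pl_zero]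
      rw [spec_some_zero]
    · set p := f.num with hpdef
      set q := f.denom with hqdef
      have hp : p ≠ 0 := RatFunc.num_ne_zero hf
      have hq : q ≠ 0 := f.denom_ne_zero
      have hfe : ∀ γ, plP ((some f : P1 (RatFunc (LL K))).map (iota γ)) =
          pl (iotaP γ p / iotaP γ q) := by
        intro γ
        rw [Option.map_some, plP, ← iota_div, RatFunc.num_div_denom]
      set i := p.natTrailingDegree with hidef
      set j := q.natTrailingDegree with hjdef
      have hi : p.coeff i ≠ 0 := by
        rw [hidef, ← trailingCoeff]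
        exact trailingCoeff_nonzero_iff_nonzero.2 hp
      have hj : q.coeff j ≠ 0 := by
        rw [hjdef, ← trailingCoeff]
        exact trailingCoeff_nonzero_iff_nonzero.2 hq
      have hP : ∀ d < i, p.coeff d = 0 := fun d hd => coeff_eq_zero_of_lt_natTrailingDegree hd
      have hQ : ∀ d < j, q.coeff d = 0 := fun d hd => coeff_eq_zero_of_lt_natTrailingDegree hd
      have hb := HahnSeries.leadingCoeff_ne_zero.2 hj
      obtain ⟨s1, s2, s3⟩ := spec_zero_of p q i j _ _ hi hj hP rfl hQ rfl
      rw [RatFunc.num_div_denom] at s1 s2 s3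
      have e1 := ev_dom_top p i hP
      have e2 := ev_dom_top q j hQ
      have key : ∀ γ, (∀ j ∈ p.support, j ≠ i →
            (p.coeff i).order + i * γ < (p.coeff j).order + j * γ) →
          (∀ i ∈ q.support, i ≠ j →
            (q.coeff j).order + j * γ < (q.coeff i).order + i * γ) →
          ((p.coeff i).order + i * γ < (q.coeff j).order + j * γ →
            pl (iotaP γ p / iotaP γ q) = none) ∧
          ((q.coeff j).order + j * γ < (p.coeff i).order + i * γ →
            pl (iotaP γ p / iotaP γ q) = some 0) ∧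
          ((p.coeff i).order + i * γ = (q.coeff j).order + j * γ →
            spec K 1 (pl (iotaP γ p / iotaP γ q)) =
              some ((p.coeff i).leadingCoeff / (q.coeff j).leadingCoeff)) := by
        intro γ h1 h2
        obtain ⟨a1, a2⟩ := lead_strict γ p i hi fun l hl h => h1 l (mem_support_iff.2 h) hl
        obtain ⟨b1, b2⟩ := lead_strict γ q j hj fun l hl h => h2 l (mem_support_iff.2 h) hl
        obtain ⟨c1, c2, c3⟩ := quot (iotaP_ne γ p hp) (iotaP_ne γ q hq)
        rw [a1, b1] at c1 c2 c3
        refine ⟨c1, c2, fun h => ?_⟩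
        rw [c3 h, a2, b2, spec_one_mono _ _ hb]
      have e3 := eventually_gt_atTop (|(p.coeff i).order - (q.coeff j).order|)
      rcases lt_trichotomy i j with hij | hij | hij
      · filter_upwards [e1, e2, e3] with γ h1 h2 h3
        have h5 : (i : ℝ) + 1 ≤ j := by exact_mod_cast hij
        have h6 := (le_abs_self _).trans_lt h3
        have h7 : 0 < γ := (abs_nonneg _).trans_lt h3
        rw [hfe, (key γ h1 h2).1 (by nlinarith [mul_nonneg (sub_nonneg.2 h5) h7.le]), s1 hij]
        rfl
      · obtain ⟨r1, r2, r3⟩ := quotL hi hj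
        filter_upwards [e1, e2] with γ h1 h2
        have hk := key γ h1 h2
        rw [hfe, s3 hij]
        change _ = pl (p.coeff i / q.coeff j)
        rcases lt_trichotomy ((p.coeff i).order) ((q.coeff j).order) with ho | ho | ho
        · rw [hk.1 (by rw [hij] at ho ⊢; linarith), r1 ho]
          rfl
        · rw [hk.2.2 (by rw [hij] at ho ⊢; linarith), r3 ho]
        · rw [hk.2.1 (by rw [hij] at ho ⊢; linarith), r2 ho, spec_some_zero]
      · filter_upwards [e1, e2, e3] with γ h1 h2 h3
        have h5 : (j : ℝ) + 1 ≤ i := by exact_mod_cast hij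
        have h6 := (neg_abs_le _).trans_lt' (neg_lt_neg h3)
        have h7 : 0 < γ := (abs_nonneg _).trans_lt h3
        rw [hfe, (key γ h1 h2).2.1 (by nlinarith [mul_nonneg (sub_nonneg.2 h5) h7.le]), s2 hij,
          spec_some_zero]
        exact pl_zero.symm

end asy

end Pool.Agent.X321.HS
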