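import Pool.Agent.H39R2.Gon.RMap

set_option autoImplicit false

/-!
# Generalized power series with real exponents: places and rational functions
-/

namespace Pool.Agent.X321.HS

open Polynomial H39Gon Filter Topology

/-- generalized power series with real exponents -/
abbrev LL (K : Type) [Field K] : Type := HahnSeries ℝ K

section base

variable {K K' : Type} [Field K] [Field K']

/-- coefficientwise application of a homomorphism of fields -/
noncomputable def hm (φ : K →+* K') : LL K →+* LL K' where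
  toFun x := x.map φ
  map_one' := HahnSeries.map_one φ.toMonoidWithZeroHom
  map_mul' x y := HahnSeries.map_mul (φ : K →ₙ+* K')
  map_zero' := by ext; simp
  map_add' x y := by ext; simp

theorem hm_coeff (φ : K →+* K') (x : LL K) (g : ℝ) : (hm φ x).coeff g = φ (x.coeff g) := rfl

theorem hm_single (φ : K →+* K') (g : ℝ) (a : K) :
    hm φ (HahnSeries.single g a) = HahnSeries.single g (φ a) := by
  ext g'
  rw [hm_coeff, HahnSeries.coeff_single, HahnSeries.coeff_single]
  split_ifs
  · rfl
  · exact map_zero φ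

theorem order_eq {x : LL K} {g : ℝ} (h1 : x.coeff g ≠ 0) (h2 : ∀ g' < g, x.coeff g' = 0) :
    x.order = g ∧ x.leadingCoeff = x.coeff g := by
  have h3 : x.order = g := by
    apply le_antisymm (HahnSeries.order_le_of_coeff_ne_zero h1)
    by_contra h
    push Not at h
    have hx : x ≠ 0 := HahnSeries.ne_zero_of_coeff_ne_zero h1
    exact hx (HahnSeries.coeff_order_eq_zero.1 (h2 _ h))
  exact ⟨h3, by rw [HahnSeries.leadingCoeff_eq, h3]⟩

open Classical in
/-- the place of the field of generalized power series -/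
noncomputable def pl (x : LL K) : P1 K := if x.order < 0 then none else some (x.coeff 0)

/-- the place on `P^1` -/
noncomputable def plP : P1 (LL K) → P1 K
  | none => none
  | some x => pl x

theorem pl_neg {x : LL K} (h : x.order < 0) : pl x = none := by
  rw [pl, if_pos h]

theorem pl_pos {x : LL K} (h : 0 < x.order) : pl x = some 0 := by
  rw [pl, if_neg (not_lt.2 h.le), HahnSeries.coeff_eq_zero_of_lt_order h]

theorem pl_unit {x : LL K} (h : x.order = 0) : pl x = some x.leadingCoeff := by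
  rw [pl, if_neg (not_lt.2 h.ge), HahnSeries.leadingCoeff_eq, h]

theorem pl_zero : pl (0 : LL K) = some 0 := by
  rw [pl, HahnSeries.order_zero, if_neg (lt_irrefl _), HahnSeries.coeff_zero]

theorem pl_C (a : K) : pl (HahnSeries.C a : LL K) = some a := by
  rw [pl, HahnSeries.order_C, if_neg (lt_irrefl _), HahnSeries.C_apply,
    HahnSeries.coeff_single_same]

theorem hm_order (φ : K →+* K') (x : LL K) : (hm φ x).order = x.order := by
  by_cases hx : x = 0
  · rw [hx, map_zero, HahnSeries.order_zero, HahnSeries.order_zero]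
  · refine (order_eq ?_ fun g' hg' => ?_).1
    · rw [hm_coeff]
      exact (map_ne_zero φ).2 fun h => hx (HahnSeries.coeff_order_eq_zero.1 h)
    · rw [hm_coeff, HahnSeries.coeff_eq_zero_of_lt_order hg', map_zero]

theorem pl_hm (φ : K →+* K') (x : LL K) : pl (hm φ x) = Option.map φ (pl x) := by
  rw [pl, pl, hm_order]
  split_ifs
  · rfl
  · rw [Option.map_some, hm_coeff]

theorem order_div {x y : LL K} (hx : x ≠ 0) (hy : y ≠ 0) :
    (x / y).order = x.order - y.order := by
  have h := HahnSeries.order_mul (div_ne_zero hx hy) hy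
  rw [div_mul_cancel₀ _ hy] at h
  rw [h]
  ring

theorem lead_div {x y : LL K} (hy : y ≠ 0) :
    (x / y).leadingCoeff = x.leadingCoeff / y.leadingCoeff := by
  have h := HahnSeries.leadingCoeff_mul (x / y) y
  rw [div_mul_cancel₀ _ hy] at h
  rw [h, mul_div_cancel_right₀ _ (HahnSeries.leadingCoeff_ne_zero.2 hy)]

/-! ### rational functions -/

/-- polynomials: `X ↦ t^γ X` -/
noncomputable def iotaP (γ : ℝ) : (LL K)[X] →+* LL (RatFunc K) :=
  eval₂RingHom (hm (RatFunc.C : K →+* RatFunc K)) (HahnSeries.single γ RatFunc.X)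

/-- the coefficient of `t^g` in `p(t^γ X)` -/
noncomputable def cf (γ : ℝ) (p : (LL K)[X]) (g : ℝ) : K[X] :=
  ∑ i ∈ p.support, monomial i ((p.coeff i).coeff (g - i * γ))

theorem cf_coeff (γ : ℝ) (p : (LL K)[X]) (g : ℝ) (j : ℕ) :
    (cf γ p g).coeff j = (p.coeff j).coeff (g - j * γ) := by
  rw [cf, finsetSum_coeff]
  simp only [coeff_monomial]
  rw [Finset.sum_ite_eq']
  split_ifs with h
  · rfl
  · rw [notMem_support_iff.1 h, HahnSeries.coeff_zero]

theorem iotaP_coeff (γ : ℝ) (p : (LL K)[X]) (g : ℝ) :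
    (iotaP γ p).coeff g = algebraMap K[X] (RatFunc K) (cf γ p g) := by
  rw [iotaP, coe_eval₂RingHom, eval₂_eq_sum, sum_def, cf, map_sum]
  have h : (∑ i ∈ p.support, hm (RatFunc.C : K →+* RatFunc K) (p.coeff i) *
      (HahnSeries.single γ (RatFunc.X : RatFunc K)) ^ i : LL (RatFunc K)).coeff g =
      ∑ i ∈ p.support, (hm (RatFunc.C : K →+* RatFunc K) (p.coeff i) *
      (HahnSeries.single γ (RatFunc.X : RatFunc K)) ^ i : LL (RatFunc K)).coeff g :=
    map_sum (HahnSeries.coeff.addMonoidHom g) _ _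
  rw [h]
  refine Finset.sum_congr rfl fun i _ => ?_
  rw [HahnSeries.single_pow, HahnSeries.coeff_mul_single, hm_coeff, ← C_mul_X_pow_eq_monomial,
    map_mul, map_pow, RatFunc.algebraMap_C, RatFunc.algebraMap_X, nsmul_eq_mul]

theorem lead (γ : ℝ) (p : (LL K)[X]) (i : ℕ) (hi : p.coeff i ≠ 0)
    (h : ∀ j, p.coeff j ≠ 0 → (p.coeff i).order + i * γ ≤ (p.coeff j).order + j * γ) :
    (iotaP γ p).order = (p.coeff i).order + i * γ ∧
      (iotaP γ p).leadingCoeff =
        algebraMap K[X] (RatFunc K) (cf γ p ((p.coeff i).order + i * γ)) ∧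
      (cf γ p ((p.coeff i).order + i * γ)).coeff i = (p.coeff i).leadingCoeff := by
  have h1 : (cf γ p ((p.coeff i).order + i * γ)).coeff i = (p.coeff i).leadingCoeff := by
    rw [cf_coeff, add_sub_cancel_right, HahnSeries.leadingCoeff_eq]
  have h2 : cf γ p ((p.coeff i).order + i * γ) ≠ 0 := by
    intro h0
    rw [h0, coeff_zero] at h1
    exact HahnSeries.leadingCoeff_ne_zero.2 hi h1.symm
  have h3 := order_eq (x := iotaP γ p) (g := (p.coeff i).order + i * γ) (by
    rw [iotaP_coeff]
    exact fun h0 => h2 ((IsFractionRing.injective K[X] (RatFunc K)) (by rw [h0, map_zero])))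
    (fun g' hg' => by
      rw [iotaP_coeff]
      have h4 : cf γ p g' = 0 := by
        ext j
        rw [cf_coeff, coeff_zero]
        by_cases hj : p.coeff j = 0
        · rw [hj, HahnSeries.coeff_zero]
        · apply HahnSeries.coeff_eq_zero_of_lt_order
          have := h j hj
          linarith
      rw [h4, map_zero])
  exact ⟨h3.1, by rw [h3.2, iotaP_coeff], h1⟩

theorem exists_low (γ : ℝ) (p : (LL K)[X]) (hp : p ≠ 0) : ∃ i, p.coeff i ≠ 0 ∧
    (∀ j, p.coeff j ≠ 0 → (p.coeff i).order + i * γ ≤ (p.coeff j).order + j * γ) ∧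
    ∀ j < i, p.coeff j ≠ 0 → (p.coeff i).order + i * γ < (p.coeff j).order + j * γ := by
  classical
  obtain ⟨k, hk, hmin⟩ := Finset.exists_min_image p.support
    (fun j => (p.coeff j).order + j * γ) (support_nonempty.2 hp)
  have hex : ∃ i, p.coeff i ≠ 0 ∧
      ∀ j, p.coeff j ≠ 0 → (p.coeff i).order + i * γ ≤ (p.coeff j).order + j * γ :=
    ⟨k, mem_support_iff.1 hk, fun j hj => hmin j (mem_support_iff.2 hj)⟩
  refine ⟨Nat.find hex, (Nat.find_spec hex).1, (Nat.find_spec hex).2, fun j hj hne => ?_⟩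
  by_contra hcon
  push Not at hcon
  refine Nat.find_min hex hj ⟨hne, fun l hl => ?_⟩
  exact hcon.trans ((Nat.find_spec hex).2 l hl)

theorem iotaP_ne (γ : ℝ) (p : (LL K)[X]) (hp : p ≠ 0) : iotaP γ p ≠ 0 := by
  obtain ⟨i, hi, h, -⟩ := exists_low γ p hp
  obtain ⟨-, h2, h3⟩ := lead γ p i hi h
  intro h0
  rw [h0, HahnSeries.leadingCoeff_zero] at h2
  have h4 : cf γ p ((p.coeff i).order + i * γ) = 0 :=
    (IsFractionRing.injective K[X] (RatFunc K)) (by rw [← h2, map_zero])
  rw [h4, coeff_zero] at h3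
  exact HahnSeries.leadingCoeff_ne_zero.2 hi h3.symm

theorem iotaP_inj (γ : ℝ) : Function.Injective (iotaP γ : (LL K)[X] →+* LL (RatFunc K)) := by
  rw [injective_iff_map_eq_zero]
  intro p hp
  by_contra h
  exact iotaP_ne γ p h hp

/-- rational functions: `X ↦ t^γ X` -/
noncomputable def iota (γ : ℝ) : RatFunc (LL K) →+* LL (RatFunc K) :=
  IsFractionRing.lift (A := (LL K)[X]) (iotaP_inj γ)

theorem iota_div (γ : ℝ) (p q : (LL K)[X]) :
    iota γ (algebraMap (LL K)[X] (RatFunc (LL K)) p / algebraMap _ _ q) =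
      iotaP γ p / iotaP γ q := by
  rw [iota, map_div₀, IsFractionRing.lift_algebraMap, IsFractionRing.lift_algebraMap]

/-! ### values of rational functions -/

theorem spec_fin (t0 : K) (a b : K[X]) (hb : b.eval t0 ≠ 0) :
    spec K t0 (some (algebraMap K[X] (RatFunc K) a / algebraMap K[X] (RatFunc K) b)) =
      some (a.eval t0 / b.eval t0) := by
  classical
  set f : RatFunc K := algebraMap K[X] (RatFunc K) a / algebraMap K[X] (RatFunc K) b with hf
  have hb0 : b ≠ 0 := by
    rintro rfl
    exact hb (by simp)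
  have hA : Function.Injective (algebraMap K[X] (RatFunc K)) := IsFractionRing.injective _ _
  have hb' : algebraMap K[X] (RatFunc K) b ≠ 0 := fun h => hb0 (hA (by rw [h, map_zero]))
  have hd' : algebraMap K[X] (RatFunc K) f.denom ≠ 0 := fun h =>
    f.denom_ne_zero (hA (by rw [h, map_zero]))
  have h1 : f.num * b = a * f.denom := by
    apply hA
    rw [map_mul, map_mul]
    exact (div_eq_div_iff hd' hb').1 (by rw [f.num_div_denom])
  have h4 : f.denom ∣ b := f.isCoprime_num_denom.symm.dvd_of_dvd_mul_left ⟨a, by rw [h1]; ring⟩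
  have h5 : f.denom.eval t0 ≠ 0 := by
    obtain ⟨c, hc⟩ := h4
    intro h
    exact hb (by rw [hc, eval_mul, h, zero_mul])
  have h6 := congrArg (eval t0) h1
  rw [eval_mul, eval_mul] at h6
  simp only [spec, if_neg h5]
  congr 1
  rw [div_eq_div_iff h5 hb, h6]

theorem spec_pole (t0 : K) (a b : K[X]) (hb0 : b ≠ 0) (hb : b.eval t0 = 0)
    (ha : a.eval t0 ≠ 0) :
    spec K t0 (some (algebraMap K[X] (RatFunc K) a / algebraMap K[X] (RatFunc K) b)) = none := by
  classical
  set f : RatFunc K := algebraMap K[X] (RatFunc K) a / algebraMap K[X] (RatFunc K) b with hf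
  have hA : Function.Injective (algebraMap K[X] (RatFunc K)) := IsFractionRing.injective _ _
  have hb' : algebraMap K[X] (RatFunc K) b ≠ 0 := fun h => hb0 (hA (by rw [h, map_zero]))
  have hd' : algebraMap K[X] (RatFunc K) f.denom ≠ 0 := fun h =>
    f.denom_ne_zero (hA (by rw [h, map_zero]))
  have h1 : f.num * b = a * f.denom := by
    apply hA
    rw [map_mul, map_mul]
    exact (div_eq_div_iff hd' hb').1 (by rw [f.num_div_denom])
  have h6 := congrArg (eval t0) h1
  rw [eval_mul, eval_mul, hb, mul_zero] at h6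
  have h7 : f.denom.eval t0 = 0 := (mul_eq_zero.1 h6.symm).resolve_left ha
  simp only [spec, if_pos h7]

/-- lowest terms at `0` -/
theorem spec_zero_of (P Q : K[X]) (i j : ℕ) (a b : K) (ha : a ≠ 0) (hb : b ≠ 0)
    (hP : ∀ d < i, P.coeff d = 0) (hPi : P.coeff i = a) (hQ : ∀ d < j, Q.coeff d = 0)
    (hQj : Q.coeff j = b) :
    (i < j → spec K 0 (some (algebraMap K[X] (RatFunc K) P / algebraMap _ _ Q)) = none) ∧
    (j < i → spec K 0 (some (algebraMap K[X] (RatFunc K) P / algebraMap _ _ Q)) = some 0) ∧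
    (i = j → spec K 0 (some (algebraMap K[X] (RatFunc K) P / algebraMap _ _ Q)) =
      some (a / b)) := by
  obtain ⟨P', hP'⟩ := X_pow_dvd_iff.2 hP
  obtain ⟨Q', hQ'⟩ := X_pow_dvd_iff.2 hQ
  have hPa : P'.eval 0 = a := by
    rw [← coeff_zero_eq_eval_zero, ← hPi, hP', coeff_X_pow_mul', if_pos le_rfl, Nat.sub_self]
  have hQb : Q'.eval 0 = b := by
    rw [← coeff_zero_eq_eval_zero, ← hQj, hQ', coeff_X_pow_mul', if_pos le_rfl, Nat.sub_self]
  have hA : Function.Injective (algebraMap K[X] (RatFunc K)) := IsFractionRing.injective _ _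
  have hX : ∀ n : ℕ, algebraMap K[X] (RatFunc K) (X ^ n) ≠ 0 := fun n h =>
    pow_ne_zero n X_ne_zero (hA (by rw [h, map_zero]))
  have hQ0 : Q' ≠ 0 := by
    rintro rfl
    exact hb (by rw [← hQb, eval_zero])
  refine ⟨fun hij => ?_, fun hij => ?_, fun hij => ?_⟩
  · have e : algebraMap K[X] (RatFunc K) P / algebraMap _ _ Q =
        algebraMap K[X] (RatFunc K) P' / algebraMap _ _ (X ^ (j - i) * Q') := by
      rw [hP', hQ']
      have e2 : (X ^ j * Q' : K[X]) = X ^ i * (X ^ (j - i) * Q') := by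
        rw [← mul_assoc, ← pow_add, Nat.add_sub_cancel' hij.le]
      rw [e2, map_mul, map_mul _ (X ^ i) (X ^ (j - i) * Q'), mul_div_mul_left _ _ (hX i)]
    rw [e]
    refine spec_pole 0 _ _ (mul_ne_zero (pow_ne_zero _ X_ne_zero) hQ0) ?_ (by rwa [hPa])
    rw [eval_mul, eval_pow, eval_X, zero_pow (by omega), zero_mul]
  · have e : algebraMap K[X] (RatFunc K) P / algebraMap _ _ Q =
        algebraMap K[X] (RatFunc K) (X ^ (i - j) * P') / algebraMap _ _ Q' := by
      rw [hP', hQ']
      have e2 : (X ^ i * P' : K[X]) = X ^ j * (X ^ (i - j) * P') := by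
        rw [← mul_assoc, ← pow_add, Nat.add_sub_cancel' hij.le]
      rw [e2, map_mul _ (X ^ j) (X ^ (i - j) * P'), map_mul _ (X ^ j) Q',
        mul_div_mul_left _ _ (hX j)]
    rw [e, spec_fin 0 _ _ (by rwa [hQb]), eval_mul, eval_pow, eval_X, zero_pow (by omega),
      zero_mul, zero_div]
  · subst hij
    have e : algebraMap K[X] (RatFunc K) P / algebraMap _ _ Q =
        algebraMap K[X] (RatFunc K) P' / algebraMap _ _ Q' := by
      rw [hP', hQ', map_mul, map_mul, mul_div_mul_left _ _ (hX i)]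
    rw [e, spec_fin 0 _ _ (by rwa [hQb]), hPa, hQb]

theorem spec_one_mono (a b : K) (hb : b ≠ 0) (i j : ℕ) :
    spec K 1 (some (algebraMap K[X] (RatFunc K) (monomial i a) /
      algebraMap K[X] (RatFunc K) (monomial j b))) = some (a / b) := by
  rw [spec_fin 1 _ _ (by rwa [eval_monomial, one_pow, mul_one]), eval_monomial, eval_monomial,
    one_pow, one_pow, mul_one, mul_one]

theorem spec_some_zero (t0 : K) : spec K t0 (some (0 : RatFunc K)) = some 0 := by
  have h := spec_fin t0 (0 : K[X]) 1 (by rw [eval_one]; exact one_ne_zero)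
  rwa [map_zero, zero_div, eval_zero, zero_div] at h

end base

end Pool.Agent.X321.HS
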