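import Pool.Agent.X321.HS.Diff
import Pool.Agent.H39R2.GonP.Bridge

set_option autoImplicit false

/-!
# Composition, intermediate fields, algebraic closure
-/

namespace Pool.Agent.X321.HS

open GonP
open Pool.Agent.TH358.GP (Induced InducedL InducedB onUnits onUnits_cl exists_T exists_S
  lext_P isLin)
open Pool.Agent.X321.UP (CohInjective comm_d comm_e cohInjective exClosed_algClosed)
open H39Gon (rmM rmU R_map rmU_cl)

/-- the differentials exist and are unique -/
theorem exists_unique_D (F : Type) [Field F] :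
    ∃ D : Differentials F, ∀ D' : Differentials F, D' = D := by
  obtain ⟨D⟩ := exists_D F
  exact ⟨ofD D, fun D' => unique (ofD D) D'⟩

/-- the specialization of the relation groups -/
theorem special (F : Type) [Field F] (n : ℕ) (hn : 2 ≤ n) (r : ZP (HahnSeries ℝ F))
    (hr : r ∈ R n (HahnSeries ℝ F)) :
    ∃ N : ℕ, 0 < N ∧ N • Finsupp.mapDomain plP r ∈ R n F := by
  obtain ⟨m, rfl⟩ := Nat.exists_eq_add_of_le' hn
  rw [R_eq] at hr
  obtain ⟨N, hN, h⟩ := rel_main m F r hr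
  refine ⟨N, hN, ?_⟩
  rw [R_eq]
  exact h

section defs

variable {F F' F'' : Type} [Field F] [Field F'] [Field F'']

/-- the image of `u`, an element of a term `(B_{m+2}(F) ⊗ Λ^(j+1) F^*)_ℚ`, in the corresponding
term for `F'` is a boundary -/
def BoundaryD (φ : F →+* F') (m j : ℕ) (u : TQ F (m + 2) (j + 1)) : Prop :=
  ∃ (D' : Differentials F') (T : TQ F (m + 2) (j + 1) → TQ F' (m + 2) (j + 1))
    (v : TQ F' (m + 3) j), Induced φ (m + 2) (j + 1) T ∧ D'.d m j v = T u

/-- the image of `u`, an element of a last term `(Λ^(j+2) F^*)_ℚ`, in the corresponding term for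
`F'` is a boundary -/
def BoundaryE (φ : F →+* F') (j : ℕ) (u : LQ F (j + 2)) : Prop :=
  ∃ (D' : Differentials F') (S : LQ F (j + 2) → LQ F' (j + 2)) (v : TQ F' 2 j),
    InducedL φ (j + 2) S ∧ D'.e j v = S u

/-- the image of `u` in the corresponding term for `F'` is zero -/
def VanishD (φ : F →+* F') (m j : ℕ) (u : TQ F (m + 2) j) : Prop :=
  ∃ T : TQ F (m + 2) j → TQ F' (m + 2) j, Induced φ (m + 2) j T ∧ T u = 0

/-- the image of `u` in the corresponding last term for `F'` is zero -/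
def VanishL (φ : F →+* F') (j : ℕ) (u : LQ F j) : Prop :=
  ∃ S : LQ F j → LQ F' j, InducedL φ j S ∧ S u = 0

/-- Whatever becomes zero or a boundary along `φ : F → F'` becomes zero or a boundary along
`ψ : F → F''`: the kernel of `H^i(Γ(F,n) ⊗ ℚ) → H^i(Γ(F',n) ⊗ ℚ)` is contained in the kernel of
`H^i(Γ(F,n) ⊗ ℚ) → H^i(Γ(F'',n) ⊗ ℚ)`, for all `n ≥ 2` and all `i`. -/
def KernelLe (φ : F →+* F') (ψ : F →+* F'') : Prop :=
  (∀ m j u, BoundaryD φ m j u → BoundaryD ψ m j u) ∧
  (∀ j u, BoundaryE φ j u → BoundaryE ψ j u) ∧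
  (∀ m j u, VanishD φ m j u → VanishD ψ m j u) ∧
  ∀ j u, VanishL φ j u → VanishL ψ j u

end defs

section cls

variable {F F' F'' : Type} [Field F] [Field F'] [Field F'']

theorem map_map_comp (φ : F →+* F') (φ' : F' →+* F'') (x : P1 F) :
    (x.map φ).map φ' = x.map (φ'.comp φ) := by
  cases x <;> rfl

theorem onUnits_comp (φ : F →+* F') (φ' : F' →+* F'') (y : UV F) :
    onUnits φ' (onUnits φ y) = onUnits (φ'.comp φ) y := rfl

/-- composition of the induced maps -/
theorem ind_comp {φ : F →+* F'} {φ' : F' →+* F''} {m j : ℕ}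
    {T : TQ F (m + 2) j → TQ F' (m + 2) j} {T' : TQ F' (m + 2) j → TQ F'' (m + 2) j}
    {T'' : TQ F (m + 2) j → TQ F'' (m + 2) j} (h : Induced φ (m + 2) j T)
    (h' : Induced φ' (m + 2) j T') (h'' : Induced (φ'.comp φ) (m + 2) j T'') (u) :
    T' (T u) = T'' u := by
  have h := text_P m j (fun u => T' (T u)) (fun u => T'' u)
    (isLin ((h'.1.mk' _) ∘ₗ (h.1.mk' _))) h''.1 (fun x y => ?_)
  · exact congrFun h u
  · rw [h.2, h'.2, h''.2, map_map_comp]
    rfl

theorem indL_comp {φ : F →+* F'} {φ' : F' →+* F''} {j : ℕ}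
    {T : LQ F j → LQ F' j} {T' : LQ F' j → LQ F'' j} {T'' : LQ F j → LQ F'' j}
    (h : InducedL φ j T) (h' : InducedL φ' j T') (h'' : InducedL (φ'.comp φ) j T'') (u) :
    T' (T u) = T'' u := by
  have h := lext_P j (fun u => T' (T u)) (fun u => T'' u)
    (isLin ((h'.1.mk' _) ∘ₗ (h.1.mk' _))) h''.1 (fun y => ?_)
  · exact congrFun h u
  · rw [h.2, h'.2, h''.2]
    rfl

theorem cohInj_comp (φ : F →+* F') (φ' : F' →+* F'') (h : CohInjective φ)
    (h' : CohInjective φ') : CohInjective (φ'.comp φ) := by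
  obtain ⟨T, S, hT, hS, hc⟩ := h
  obtain ⟨T', S', hT', hS', hc'⟩ := h'
  choose A hA using fun m j => exists_T (φ'.comp φ) m j
  choose B' hB using fun j => exists_S (φ'.comp φ) j
  have e1 : ∀ m j u, T' m j (T m j u) = A m j u := fun m j u =>
    ind_comp (hT m j).1 (hT' m j).1 ⟨isLin _, hA m j⟩ u
  have e2 : ∀ j u, S' j (S j u) = B' j u := fun j u =>
    indL_comp (hS j).1 (hS' j).1 ⟨isLin _, hB j⟩ u
  obtain ⟨D1, -⟩ := exists_unique_D F'
  refine ⟨fun m j => A m j, fun j => B' j, fun m j => ⟨⟨isLin _, hA m j⟩, fun u v huv => ?_⟩,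
    fun j => ⟨⟨isLin _, hB j⟩, fun u v huv => ?_⟩, fun D D' =>
    ⟨fun m j u => comm_d _ A hA D D' m j u, fun j u => comm_e _ A hA B' hB D D' j u,
      fun m j u v huv => ?_, fun j u v huv => ?_⟩⟩
  · apply (hT m j).2
    apply (hT' m j).2
    rw [e1, e1]
    exact huv
  · apply (hS j).2
    apply (hS' j).2
    rw [e2, e2]
    exact huv
  · obtain ⟨w, hw⟩ := (hc' D1 D').2.2.1 m j (T m (j + 1) u) v (by rw [e1]; exact huv)
    exact (hc D D1).2.2.1 m j u w hw
  · obtain ⟨w, hw⟩ := (hc' D1 D').2.2.2 j (S (j + 2) u) v (by rw [e2]; exact huv)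
    exact (hc D D1).2.2.2 j u w hw

theorem cohInj_sub (φ : F →+* F') (φ' : F' →+* F'') (h : CohInjective (φ'.comp φ)) :
    CohInjective φ := by
  obtain ⟨T, S, hT, hS, hc⟩ := h
  choose A hA using fun m j => exists_T φ m j
  choose B' hB using fun j => exists_S φ j
  choose A1 hA1 using fun m j => exists_T φ' m j
  choose B1 hB1 using fun j => exists_S φ' j
  have e1 : ∀ m j u, A1 m j (A m j u) = T m j u := fun m j u =>
    ind_comp (T := fun u => A m j u) (T' := fun u => A1 m j u) ⟨isLin _, hA m j⟩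
      ⟨isLin _, hA1 m j⟩ (hT m j).1 u
  have e2 : ∀ j u, B1 j (B' j u) = S j u := fun j u =>
    indL_comp (T := fun u => B' j u) (T' := fun u => B1 j u) ⟨isLin _, hB j⟩
      ⟨isLin _, hB1 j⟩ (hS j).1 u
  obtain ⟨D2, -⟩ := exists_unique_D F''
  refine ⟨fun m j => A m j, fun j => B' j, fun m j => ⟨⟨isLin _, hA m j⟩, fun u v huv => ?_⟩,
    fun j => ⟨⟨isLin _, hB j⟩, fun u v huv => ?_⟩, fun D D' =>
    ⟨fun m j u => comm_d _ A hA D D' m j u, fun j u => comm_e _ A hA B' hB D D' j u,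
      fun m j u v huv => ?_, fun j u v huv => ?_⟩⟩
  · apply (hT m j).2
    rw [← e1, ← e1]
    exact congrArg (A1 m j) huv
  · apply (hS j).2
    rw [← e2, ← e2]
    exact congrArg (B1 j) huv
  · refine (hc D D2).2.2.1 m j u (A1 (m + 1) j v) ?_
    rw [← comm_d φ' A1 hA1 D' D2, huv, e1]
  · refine (hc D D2).2.2.2 j u (A1 0 j v) ?_
    rw [← comm_e φ' A1 hA1 B1 hB1 D' D2, huv, e2]

/-- the kernels to `F'` are contained in the kernels to the algebraic closure -/
theorem kernel_algClosure (φ : F →+* F') :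
    KernelLe φ (algebraMap F (AlgebraicClosure F)) := by
  set φ1 : F' →+* AlgebraicClosure F' := algebraMap F' (AlgebraicClosure F') with hφ1
  set ι : F →+* AlgebraicClosure F := algebraMap F (AlgebraicClosure F) with hι
  obtain ⟨ε, hε⟩ : ∃ ε : AlgebraicClosure F →+* AlgebraicClosure F', ε.comp ι = φ1.comp φ := by
    let _ : Algebra F (AlgebraicClosure F') := (φ1.comp φ).toAlgebra
    let σ : AlgebraicClosure F →ₐ[F] AlgebraicClosure F' := IsAlgClosed.lift
    refine ⟨σ.toRingHom, ?_⟩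
    ext a
    exact σ.commutes a
  have hcε : CohInjective ε := by
    let _ : Algebra (AlgebraicClosure F) (AlgebraicClosure F') := ε.toAlgebra
    exact cohInjective (exClosed_algClosed (AlgebraicClosure F) (AlgebraicClosure F'))
  obtain ⟨T, S, hT, hS, hc⟩ := hcε
  choose A hA using fun m j => exists_T φ1 m j
  choose B' hB using fun j => exists_S φ1 j
  choose I hI using fun m j => exists_T ι m j
  choose J hJ using fun j => exists_S ι j
  choose C hC using fun m j => exists_T (φ1.comp φ) m j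
  choose G hG using fun j => exists_S (φ1.comp φ) j
  obtain ⟨DΩ, -⟩ := exists_unique_D (AlgebraicClosure F)
  obtain ⟨DE, -⟩ := exists_unique_D (AlgebraicClosure F')
  have a1 : ∀ m j (X : TQ F (m + 2) j → TQ F' (m + 2) j), Induced φ (m + 2) j X →
      ∀ u, A m j (X u) = T m j (I m j u) := by
    intro m j X hX u
    rw [ind_comp (T' := fun u => A m j u) (T'' := fun u => C m j u) hX ⟨isLin _, hA m j⟩
      ⟨isLin _, hC m j⟩ u]
    refine (ind_comp (T := fun u => I m j u) (T'' := fun u => C m j u) ⟨isLin _, hI m j⟩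
      (hT m j).1 ?_ u).symm
    rw [hε]
    exact ⟨isLin _, hC m j⟩
  have a2 : ∀ j (X : LQ F j → LQ F' j), InducedL φ j X →
      ∀ u, B' j (X u) = S j (J j u) := by
    intro j X hX u
    rw [indL_comp (T' := fun u => B' j u) (T'' := fun u => G j u) hX ⟨isLin _, hB j⟩
      ⟨isLin _, hG j⟩ u]
    refine (indL_comp (T := fun u => J j u) (T'' := fun u => G j u) ⟨isLin _, hJ j⟩
      (hS j).1 ?_ u).symm
    rw [hε]
    exact ⟨isLin _, hG j⟩
  refine ⟨?_, ?_, ?_, ?_⟩
  · rintro m j u ⟨D', X, v, hX, hv⟩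
    have e := comm_d φ1 A hA D' DE m j v
    rw [hv, a1 m (j + 1) X hX u] at e
    obtain ⟨w, hw⟩ := (hc DΩ DE).2.2.1 m j (I m (j + 1) u) _ e.symm
    exact ⟨DΩ, fun u => I m (j + 1) u, w, ⟨isLin _, hI m (j + 1)⟩, hw⟩
  · rintro j u ⟨D', X, v, hX, hv⟩
    have e := comm_e φ1 A hA B' hB D' DE j v
    rw [hv, a2 (j + 2) X hX u] at e
    obtain ⟨w, hw⟩ := (hc DΩ DE).2.2.2 j (J (j + 2) u) _ e.symm
    exact ⟨DΩ, fun u => J (j + 2) u, w, ⟨isLin _, hJ (j + 2)⟩, hw⟩
  · rintro m j u ⟨X, hX, hu⟩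
    refine ⟨fun u => I m j u, ⟨isLin _, hI m j⟩, ?_⟩
    apply (hT m j).2
    change T m j (I m j u) = T m j 0
    rw [← a1 m j X hX u, hu, map_zero]
    exact ((hT m j).1.1.mk' _).map_zero.symm
  · rintro j u ⟨X, hX, hu⟩
    refine ⟨fun u => J j u, ⟨isLin _, hJ j⟩, ?_⟩
    apply (hS j).2
    change S j (J j u) = S j 0
    rw [← a2 j X hX u, hu, map_zero]
    exact ((hS j).1.1.mk' _).map_zero.symm

end cls

end Pool.Agent.X321.HS
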