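import Pool.Agent.X321.HS.Fin
import Pool.Agent.TH358.GP.EvC

set_option autoImplicit false

/-!
# The differentials of Goncharov's complexes exist, for all fields
-/

namespace Pool.Agent.X321.HS

open Polynomial H39Gon Filter Topology
open scoped TensorProduct

section diff

variable {F : Type} [Field F]

/-- polynomials: `X ↦ t` -/
noncomputable def kapP : F[X] →+* LL F :=
  eval₂RingHom (HahnSeries.C : F →+* LL F) (HahnSeries.single 1 1)

theorem kapP_coeff (p : F[X]) (g : ℝ) :
    (kapP p).coeff g = ∑ i ∈ p.support, if g = (i : ℝ) then p.coeff i else 0 := by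
  rw [kapP, coe_eval₂RingHom, eval₂_eq_sum, sum_def]
  have h : (∑ i ∈ p.support, (HahnSeries.C : F →+* LL F) (p.coeff i) *
      (HahnSeries.single (1 : ℝ) (1 : F)) ^ i : LL F).coeff g =
      ∑ i ∈ p.support, ((HahnSeries.C : F →+* LL F) (p.coeff i) *
      (HahnSeries.single (1 : ℝ) (1 : F)) ^ i : LL F).coeff g :=
    map_sum (HahnSeries.coeff.addMonoidHom g) _ _
  rw [h]
  refine Finset.sum_congr rfl fun i _ => ?_
  rw [HahnSeries.single_pow, one_pow, HahnSeries.C_apply, HahnSeries.single_mul_single, zero_add,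
    mul_one, HahnSeries.coeff_single, nsmul_eq_mul, mul_one]

theorem kapP_neg (p : F[X]) (g : ℝ) (hg : g < 0) : (kapP p).coeff g = 0 := by
  rw [kapP_coeff]
  refine Finset.sum_eq_zero fun i _ => ?_
  rw [if_neg]
  intro h
  rw [h] at hg
  exact absurd (Nat.cast_nonneg i) (not_le.2 hg)

theorem kapP_nat (p : F[X]) (n : ℕ) : (kapP p).coeff (n : ℝ) = p.coeff n := by
  rw [kapP_coeff]
  simp only [Nat.cast_inj]
  rw [Finset.sum_ite_eq]
  split_ifs with h
  · rfl
  · exact (notMem_support_iff.1 h).symm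

theorem kapP_inj : Function.Injective (kapP : F[X] →+* LL F) := by
  rw [injective_iff_map_eq_zero]
  intro p hp
  ext n
  rw [← kapP_nat, hp, HahnSeries.coeff_zero, coeff_zero]

theorem pl_of {x : LL F} (h : ∀ g : ℝ, g < 0 → x.coeff g = 0) : pl x = some (x.coeff 0) := by
  rw [pl, if_neg]
  intro h1
  have h2 := h _ h1
  rw [HahnSeries.coeff_order_eq_zero] at h2
  rw [h2, HahnSeries.order_zero] at h1
  exact lt_irrefl _ h1

theorem pl_kapP (p : F[X]) : pl (kapP p) = some (p.eval 0) := by
  rw [pl_of (kapP_neg p), ← coeff_zero_eq_eval_zero, ← kapP_nat p 0, Nat.cast_zero]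

theorem order_of_pl {x : LL F} {a : F} (ha : a ≠ 0) (h : pl x = some a) :
    x.order = 0 ∧ x.leadingCoeff = a := by
  rcases lt_trichotomy x.order 0 with h1 | h1 | h1
  · rw [pl_neg h1] at h
    exact absurd h (by simp)
  · rw [pl_unit h1] at h
    exact ⟨h1, Option.some_injective _ h⟩
  · rw [pl_pos h1] at h
    exact absurd (Option.some_injective _ h).symm ha

theorem pl_div {x y : LL F} {a b : F} (hb : b ≠ 0) (hx : pl x = some a) (hy : pl y = some b) :
    pl (x / y) = some (a / b) := by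
  obtain ⟨y1, y2⟩ := order_of_pl hb hy
  have hy0 : y ≠ 0 := by
    rintro rfl
    rw [pl_zero] at hy
    exact hb (Option.some_injective _ hy).symm
  by_cases hx0 : x = 0
  · subst hx0
    rw [pl_zero] at hx
    rw [zero_div, pl_zero, ← Option.some_injective _ hx, zero_div]
  · obtain ⟨q1, q2, q3⟩ := quotL hx0 hy0
    rcases lt_trichotomy x.order 0 with h1 | h1 | h1
    · rw [pl_neg h1] at hx
      exact absurd hx (by simp)
    · rw [pl_unit h1] at hx
      rw [q3 (by rw [h1, y1]), y2, Option.some_injective _ hx]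
    · rw [pl_pos h1] at hx
      rw [q2 (by rw [y1]; exact h1), ← Option.some_injective _ hx, zero_div]

theorem pl_pole {x y : LL F} {a : F} (ha : a ≠ 0) (hx : pl x = some a) (hy : pl y = some 0)
    (hy0 : y ≠ 0) : pl (x / y) = none := by
  obtain ⟨x1, x2⟩ := order_of_pl ha hx
  have hx0 : x ≠ 0 := by
    rintro rfl
    rw [pl_zero] at hx
    exact ha (Option.some_injective _ hx).symm
  obtain ⟨q1, q2, q3⟩ := quotL hx0 hy0
  rcases lt_trichotomy y.order 0 with h1 | h1 | h1
  · rw [pl_neg h1] at hy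
    exact absurd hy (by simp)
  · rw [pl_unit h1] at hy
    exact absurd (Option.some_injective _ hy) (HahnSeries.leadingCoeff_ne_zero.2 hy0)
  · exact q1 (by rw [x1]; exact h1)

/-- rational functions: `X ↦ t` -/
noncomputable def kap : RatFunc F →+* LL F :=
  IsFractionRing.lift (A := F[X]) kapP_inj

theorem pl_kap (x : P1 (RatFunc F)) : plP (x.map kap) = spec F 0 x := by
  classical
  cases x with
  | none => rfl
  | some f =>
    have h1 : kap f = kapP f.num / kapP f.denom := by
      conv_lhs => rw [← f.num_div_denom]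
      rw [kap, map_div₀, IsFractionRing.lift_algebraMap, IsFractionRing.lift_algebraMap]
    rw [Option.map_some, plP, h1]
    by_cases h : f.denom.eval 0 = 0
    · have h2 : f.num.eval 0 ≠ 0 := by
        intro h3
        obtain ⟨u, v, huv⟩ := f.isCoprime_num_denom
        have h4 := congrArg (eval 0) huv
        rw [eval_add, eval_mul, eval_mul, h3, h, mul_zero, mul_zero, add_zero, eval_one] at h4
        exact zero_ne_one h4
      rw [pl_pole h2 (pl_kapP _) (by rw [pl_kapP, h]) (fun h0 => f.denom_ne_zero (kapP_inj (by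
        rw [h0, map_zero])))]
      simp only [spec, if_pos h]
    · rw [pl_div h (pl_kapP _) (pl_kapP _)]
      simp only [spec, if_neg h]

theorem sp_kap (α : ZP (RatFunc F)) : sp (rmM kap α) = specZ F 0 α := by
  rw [sp, rmM, specZ, Finsupp.lmapDomain_apply, Finsupp.lmapDomain_apply,
    Finsupp.lmapDomain_apply, ← Finsupp.mapDomain_comp]
  congr 1
  funext x
  exact pl_kap x

theorem key0 (m : ℕ) (α : ZP (RatFunc F))
    (hα : α ∈ LinearMap.ker (deltaS (RatFunc F) (R (m + 2) (RatFunc F)))) :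
    specZ F 0 α ∈ sat (LinearMap.ker (deltaS F (R (m + 2) F))) := by
  rw [LinearMap.mem_ker] at hα
  apply deltaS_sat
  rw [← sp_kap, sp_deltaS (R (m + 2) (LL F)) (R (m + 2) F)
    (fun s hs => rel_main m F s hs) (zero_mem_R m) (none_mem_R m),
    rm_deltaS kap (R (m + 2) (RatFunc F)) (R (m + 2) (LL F))
    (fun s hs => R_map kap m s hs), hα, map_zero, map_zero]

theorem key1 (m : ℕ) (α : ZP (RatFunc F))
    (hα : α ∈ LinearMap.ker (deltaS (RatFunc F) (R (m + 2) (RatFunc F)))) :
    specZ F 1 α ∈ sat (LinearMap.ker (deltaS F (R (m + 2) F))) := by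
  have h := key0 m (rmM tau α) (by
    rw [LinearMap.mem_ker] at hα ⊢
    rw [rm_deltaS tau (R (m + 2) (RatFunc F)) (R (m + 2) (RatFunc F))
      (fun s hs => R_map tau m s hs), hα, map_zero])
  rwa [specZ_tau, sub_zero] at h

/-- `δ_n(R_n(F))` is a torsion group -/
theorem dR (m : ℕ) (r : ZP F) (hr : r ∈ R (m + 3) F) :
    r ∈ sat (LinearMap.ker (deltaS F (R (m + 2) F))) := by
  have hle : R (m + 3) F ≤ sat (LinearMap.ker (deltaS F (R (m + 2) F))) := by
    change relSpan F _ ≤ _
    unfold relSpan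
    rw [Submodule.span_le]
    rintro β (hβ | ⟨α, hα, rfl⟩)
    · rcases hβ with rfl | hβ
      · apply le_sat
        rw [LinearMap.mem_ker, rm_deltaS_some, cl_zero', TensorProduct.tmul_zero, smul_zero]
      · rw [Set.mem_singleton_iff] at hβ
        subst hβ
        apply le_sat
        rw [LinearMap.mem_ker, rm_deltaS_none]
    · exact Submodule.sub_mem _ (key0 m α hα) (key1 m α hα)
  exact hle hr

/-- `{x} ↦ (w ↦ {x} ⊗ x ∧ w)` -/
noncomputable def Th (m j : ℕ) : ZP F →ₗ[ℤ] ((⋀[ℤ]^j (UV F)) →ₗ[ℤ] TQ F (m + 2) (j + 1)) :=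
  AddMonoidHom.toIntLinearMap ((TensorProduct.lift (e1T F m j)).toAddMonoidHom.comp
    (deltaS F (R (m + 2) F)).toAddMonoidHom)

theorem Th_apply (m j : ℕ) (r : ZP F) :
    Th m j r = TensorProduct.lift (e1T F m j) (deltaS F (R (m + 2) F) r) := rfl

theorem exists_d (m j : ℕ) :
    ∃ d : TQ F (m + 3) j →ₗ[ℚ] TQ F (m + 2) (j + 1),
      (∀ y, d (tq F (m + 3) j none y) = 0) ∧
      (∀ y, d (tq F (m + 3) j (some 0) y) = 0) ∧
      (∀ (x : F) y, x ≠ 0 → d (tq F (m + 3) j (some x) y) =
        tq F (m + 2) (j + 1) (some x) (Fin.cons (cl x) y)) := by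
  have h : ∀ r ∈ R (m + 3) F, Th m j r = 0 := by
    intro r hr
    obtain ⟨N, hN, h1⟩ := dR m r hr
    rw [LinearMap.mem_ker] at h1
    have h3 : N • (Th m j r) = 0 := by
      rw [← map_nsmul, Th_apply, h1, map_zero]
    apply LinearMap.ext
    intro w
    have h4 := congrArg (fun f : (⋀[ℤ]^j (UV F)) →ₗ[ℤ] TQ F (m + 2) (j + 1) => f w) h3
    simp only [LinearMap.smul_apply, LinearMap.zero_apply] at h4
    rw [← Nat.cast_smul_eq_nsmul ℚ] at h4
    exact (smul_eq_zero.1 h4).resolve_left (Nat.cast_ne_zero.2 hN.ne')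
  have hsome : ∀ (x : F) (y : Fin j → UV F), e1lift _ h (tq F (m + 3) j (some x) y) =
      tq F (m + 2) (j + 1) (some x) (Fin.cons (cl x) y) := by
    intro x y
    rw [e1lift_apply, Th_apply, rm_deltaS_some, one_smul, TensorProduct.lift.tmul]
    exact e1T_apply F m j (some x) (cl x) y
  refine ⟨e1lift _ h, fun y => ?_, fun y => ?_, fun x y _ => hsome x y⟩
  · rw [e1lift_apply, Th_apply, rm_deltaS_none, map_zero]
    rfl
  · rw [hsome, cl_zero']
    unfold tq
    rw [(exteriorPower.ιMulti ℤ (j + 1)).map_coord_zero (i := 0) (by simp),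
      TensorProduct.tmul_zero, TensorProduct.tmul_zero]

variable (F) in
theorem exists_D : Nonempty (Differentials F) := by
  choose d hd using fun m j => exists_d (F := F) m j
  refine ⟨⟨d, fun m j => (hd m j).1, fun m j => (hd m j).2.1, fun m j => (hd m j).2.2,
    e1e F, ?_, ?_, ?_, ?_⟩⟩
  · intro j y
    rw [e1e_apply, e1ev_none]
    rfl
  · intro j y
    rw [e1e_apply, e1ev_some, e1Psi_apply, e1Psi2_apply, cl_zero']
    unfold lq
    rw [(exteriorPower.ιMulti ℤ (j + 2)).map_coord_zero (i := 1) (by simp),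
      TensorProduct.tmul_zero]
  · intro j y
    rw [e1e_apply, e1ev_some, e1Psi_apply, e1Psi2_apply, cl_one']
    unfold lq
    rw [(exteriorPower.ιMulti ℤ (j + 2)).map_coord_zero (i := 1) (by simp),
      TensorProduct.tmul_zero]
  · intro j x y _ _
    rw [e1e_apply, e1ev_some, e1Psi_apply, e1Psi2_apply]

end diff

end Pool.Agent.X321.HS
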