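import Pool.Agent.X321.HS.Retr
import Pool.Agent.X321.UP.Fin
import Pool.Agent.TH358.GP.Fin

set_option autoImplicit false

/-!
# Injectivity of the maps of Goncharov's complexes for extensions with a rational place
-/

namespace Pool.Agent.X321.HS

open GonP
open Pool.Agent.TH358.GP (Induced InducedL InducedB onUnits onUnits_cl exists_T exists_S
  lext_P isLin bG bG_mk bG_gen b_mk toQuo_eq map_comp_apply inducedB_unique)
open Pool.Agent.X321.UP (CohInjective comm_d comm_e)
open H39Gon (rmM rmU R_map rmU_cl)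

section fin

variable {F F' : Type} [Field F] [Field F'] {φ : F →+* F'} (T : Retr φ)

theorem exists_ret (m j : ℕ) : ∃ S : TQ F' (m + 2) j →ₗ[ℚ] TQ F (m + 2) j,
    ∀ (x : P1 F') (y : Fin j → UV F'),
      S (tq (m + 2) j x y) = tq (m + 2) j (T.P x) (fun i => T.u (y i)) := by
  obtain ⟨S, hS⟩ := exists_tm' T m j
  refine ⟨(eT F m j).symm.toLinearMap ∘ₗ S ∘ₗ (eT F' m j).toLinearMap, fun x y => ?_⟩
  rw [LinearMap.comp_apply, LinearMap.comp_apply, LinearEquiv.coe_coe, LinearEquiv.coe_coe, eT_tq,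
    hS, eT_symm_tq]

theorem exists_retL (j : ℕ) : ∃ S : LQ F' j →ₗ[ℚ] LQ F j,
    ∀ y : Fin j → UV F', S (lq j y) = lq j (fun i => T.u (y i)) := by
  obtain ⟨S, hS⟩ := exists_lm' T j
  refine ⟨(eLQ F j).symm.toLinearMap ∘ₗ S ∘ₗ (eLQ F' j).toLinearMap, fun y => ?_⟩
  rw [LinearMap.comp_apply, LinearMap.comp_apply, LinearEquiv.coe_coe, LinearEquiv.coe_coe, eLQ_lq,
    hS, eLQ_symm_lq]

theorem tqn (m j : ℕ) (y : Fin j → UV F) : tq (m + 2) j none y = (0 : TQ F (m + 2) j) := by
  apply (eT F m j).injective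
  rw [eT_tq, map_zero]
  exact tq_none m j y

theorem tqz (m j : ℕ) (y : Fin j → UV F) : tq (m + 2) j (some 0) y = (0 : TQ F (m + 2) j) := by
  apply (eT F m j).injective
  rw [eT_tq, map_zero]
  exact tq_zero m j y

theorem lqd (j : ℕ) (p q : UV F) (h : Deg p q) (y : Fin j → UV F) :
    lq (j + 2) (Fin.cons p (Fin.cons q y)) = (0 : LQ F (j + 2)) := by
  apply (eLQ F (j + 2)).injective
  rw [eLQ_lq, map_zero]
  exact lq_deg j p q h y

theorem cl_eq {K : Type} [Field K] (x : K) : GonP.cl x = H39Gon.cl x := rfl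

theorem cons_u {j : ℕ} (a : UV F') (y : Fin j → UV F') :
    (fun i => T.u ((Fin.cons a y : Fin (j + 1) → UV F') i)) =
      (Fin.cons (T.u a) (fun i => T.u (y i)) : Fin (j + 1) → UV F) := by
  funext i
  refine Fin.cases ?_ (fun i => ?_) i
  · rw [Fin.cons_zero, Fin.cons_zero]
  · rw [Fin.cons_succ, Fin.cons_succ]

theorem ret_d (S : ∀ m j : ℕ, TQ F' (m + 2) j →ₗ[ℚ] TQ F (m + 2) j)
    (hS : ∀ m j (x : P1 F') (y : Fin j → UV F'),
      S m j (tq (m + 2) j x y) = tq (m + 2) j (T.P x) (fun i => T.u (y i)))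
    (D : Differentials F) (D' : Differentials F') (m j : ℕ) (u : TQ F' (m + 3) j) :
    S m (j + 1) (D'.d m j u) = D.d m j (S (m + 1) j u) := by
  have hD := D.d_spec m j
  have hD' := D'.d_spec m j
  have hlin1 : IsLinearMap ℚ (fun u => S m (j + 1) (D'.d m j u)) :=
    isLin ((S m (j + 1)) ∘ₗ (hD'.1.mk' _))
  have hlin2 : IsLinearMap ℚ (fun u => D.d m j (S (m + 1) j u)) :=
    isLin ((hD.1.mk' _) ∘ₗ (S (m + 1) j))
  have h := text_P (m + 1) j _ _ hlin1 hlin2 (fun x y => ?_)
  · exact congrFun h u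
  · 
    rw [hS]
    cases x with
    | none =>
      rw [show D'.d m j (tq (m + 1 + 2) j none y) = 0 from hD'.2.1 y, map_zero, T.P_none]
      exact (hD.2.1 _).symm
    | some x =>
      by_cases hx : x = 0
      · subst hx
        rw [show D'.d m j (tq (m + 1 + 2) j (some 0) y) = 0 from hD'.2.2.1 y, map_zero,
          T.P_zero]
        exact (hD.2.2.1 _).symm
      · rw [show D'.d m j (tq (m + 1 + 2) j (some x) y) = _ from hD'.2.2.2 x y hx, hS, cons_u]
        rcases T.cases x hx with h | h | ⟨a, ha, h, hu⟩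
        · rw [h, tqn]
          exact (hD.2.1 _).symm
        · rw [h, tqz]
          exact (hD.2.2.1 _).symm
        · rw [h, cl_eq, hu]
          exact (hD.2.2.2 a _ ha).symm

theorem ret_e (S : ∀ m j : ℕ, TQ F' (m + 2) j →ₗ[ℚ] TQ F (m + 2) j)
    (hS : ∀ m j (x : P1 F') (y : Fin j → UV F'),
      S m j (tq (m + 2) j x y) = tq (m + 2) j (T.P x) (fun i => T.u (y i)))
    (L : ∀ j : ℕ, LQ F' j →ₗ[ℚ] LQ F j)
    (hL : ∀ j (y : Fin j → UV F'), L j (lq j y) = lq j (fun i => T.u (y i)))
    (D : Differentials F) (D' : Differentials F') (j : ℕ) (u : TQ F' 2 j) :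
    L (j + 2) (D'.e j u) = D.e j (S 0 j u) := by
  have hD := D.e_spec j
  have hD' := D'.e_spec j
  have hlin1 : IsLinearMap ℚ (fun u => L (j + 2) (D'.e j u)) :=
    isLin ((L (j + 2)) ∘ₗ (hD'.1.mk' _))
  have hlin2 : IsLinearMap ℚ (fun u => D.e j (S 0 j u)) :=
    isLin ((hD.1.mk' _) ∘ₗ (S 0 j))
  have h := text_P 0 j _ _ hlin1 hlin2 (fun x y => ?_)
  · exact congrFun h u
  · 
    rw [hS]
    cases x with
    | none =>
      rw [show D'.e j (tq (0 + 2) j none y) = 0 from hD'.2.1 y, map_zero, T.P_none]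
      exact (hD.2.1 _).symm
    | some x =>
      by_cases hx : x = 0
      · subst hx
        rw [show D'.e j (tq (0 + 2) j (some 0) y) = 0 from hD'.2.2.1 y, map_zero, T.P_zero]
        exact (hD.2.2.1 _).symm
      · by_cases hx1 : x = 1
        · subst hx1
          rw [show D'.e j (tq (0 + 2) j (some 1) y) = 0 from hD'.2.2.2.1 y, map_zero, T.P_one]
          exact (hD.2.2.2.1 _).symm
        · rw [show D'.e j (tq (0 + 2) j (some x) y) = _ from hD'.2.2.2.2 x y hx hx1, hL, cons_u,
            cons_u]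
          rcases T.wedge x hx hx1 with ⟨a, ha, ha1, h, hu, hu'⟩ | ⟨h, hd⟩
          · rw [h, cl_eq, cl_eq, hu, hu']
            exact (hD.2.2.2.2 a _ ha ha1).symm
          · rw [cl_eq, cl_eq, lqd _ _ _ hd]
            rcases h with h | h | h
            · rw [h]; exact (hD.2.1 _).symm
            · rw [h]; exact (hD.2.2.1 _).symm
            · rw [h]; exact (hD.2.2.2.1 _).symm

include T in
/-- injectivity on the cohomology -/
theorem cohInj : CohInjective φ := by
  choose A hA using fun m j => exists_T φ m j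
  choose B' hB using fun j => exists_S φ j
  choose S hS using fun m j => exists_ret T m j
  choose L hL using fun j => exists_retL T j
  have h1 : ∀ m j u, S m j (A m j u) = u := by
    intro m j u
    have h := text_P m j (fun u => S m j (A m j u)) (fun u => u) (isLin ((S m j) ∘ₗ (A m j)))
      (isLin LinearMap.id) (fun x y => ?_)
    · exact congrFun h u
    · 
      rw [hA, hS, T.P_map]
      congr 1
      funext i
      exact T.u_map (y i)
  have h2 : ∀ j u, L j (B' j u) = u := by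
    intro j u
    have h := lext_P j (fun u => L j (B' j u)) (fun u => u) (isLin ((L j) ∘ₗ (B' j)))
      (isLin LinearMap.id) (fun y => ?_)
    · exact congrFun h u
    · 
      rw [hB, hL]
      congr 1
      funext i
      exact T.u_map (y i)
  refine ⟨fun m j => A m j, fun j => B' j, fun m j => ⟨⟨isLin _, hA m j⟩, fun u v huv => ?_⟩,
    fun j => ⟨⟨isLin _, hB j⟩, fun u v huv => ?_⟩, fun D D' =>
    ⟨fun m j u => comm_d φ A hA D D' m j u, fun j u => comm_e φ A hA B' hB D D' j u,
      fun m j u v huv => ?_, fun j u v huv => ?_⟩⟩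
  · rw [← h1 m j u, ← h1 m j v]
    exact congrArg (S m j) huv
  · rw [← h2 j u, ← h2 j v]
    exact congrArg (L j) huv
  · refine ⟨S (m + 1) j v, ?_⟩
    rw [← ret_d T S hS D D', huv, h1]
  · refine ⟨S 0 j v, ?_⟩
    rw [← ret_e T S hS L hL D D', huv, h2]

include T in
/-- the kernel of `B_n(F) → B_n(F')` is a torsion group -/
theorem B_tors (n : ℕ) (hn : 2 ≤ n) (t : B n F → B n F') (ht : InducedB φ n t) (b : B n F)
    (hb : t b = 0) : ∃ N : ℕ, 0 < N ∧ N • b = 0 := by
  obtain ⟨m, rfl⟩ := Nat.exists_eq_add_of_le' hn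
  rw [inducedB_unique φ (m + 2) t (bG φ (m + 2) (by omega)) ht
    ⟨fun b c => map_add _ b c, fun x => bG_gen _ _ _ x⟩] at hb
  obtain ⟨a, rfl⟩ := b_mk b
  rw [bG_mk] at hb
  have h1 : rmM φ a ∈ R (m + 2) F' := (QuotientAddGroup.eq_zero_iff (N := R (m + 2) F') _).1 hb
  rw [R_eq] at h1
  obtain ⟨N, hN, h2⟩ := T.rel m _ h1
  refine ⟨N, hN, ?_⟩
  have e : Finsupp.lmapDomain ℤ ℤ T.P (rmM φ a) = a := by
    rw [rmM, Finsupp.lmapDomain_apply, Finsupp.lmapDomain_apply, ← Finsupp.mapDomain_comp]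
    have e2 : T.P ∘ Option.map φ = id := by
      funext x
      exact T.P_map x
    rw [e2, Finsupp.mapDomain_id]
  rw [e] at h2
  have h3 : N • a ∈ R (m + 2) F := by
    rw [R_eq]
    exact h2
  exact (QuotientAddGroup.eq_zero_iff (N := R (m + 2) F) _).2 h3

end fin

/-! ### examples -/

/-- Laurent series -/
theorem placeExt_laurent (F : Type) [Field F] :
    PlaceExt (HahnSeries.C : F →+* LaurentSeries F) := by
  let ψ : LaurentSeries F →+* HahnSeries ℝ F :=
    HahnSeries.embDomainRingHom (Int.castAddHom ℝ) Int.cast_injective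
      (fun g g' => by simp)
  refine PlaceExt.sub (HahnSeries.C : F →+* LaurentSeries F) ψ ?_
  have h : ψ.comp (HahnSeries.C : F →+* LaurentSeries F) = (HahnSeries.C : F →+* HahnSeries ℝ F) := by
    ext1 a
    exact HahnSeries.embDomainRingHom_C
  rw [h]
  exact PlaceExt.hahn F

/-- rational functions -/
theorem placeExt_ratFunc (F : Type) [Field F] : PlaceExt (RatFunc.C : F →+* RatFunc F) := by
  have hinj : Function.Injective (algebraMap (Polynomial F) (LaurentSeries F)) :=
    Polynomial.algebraMap_hahnSeries_injective ℤ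
  refine PlaceExt.sub (RatFunc.C : F →+* RatFunc F)
    (IsFractionRing.lift (A := Polynomial F) hinj : RatFunc F →+* LaurentSeries F) ?_
  have h : (IsFractionRing.lift (A := Polynomial F) hinj : RatFunc F →+* LaurentSeries F).comp
      (RatFunc.C : F →+* RatFunc F) = (HahnSeries.C : F →+* LaurentSeries F) := by
    ext1 a
    rw [RingHom.comp_apply, ← RatFunc.algebraMap_C, IsFractionRing.lift_algebraMap]
    simp
  rw [h]
  exact placeExt_laurent F

end Pool.Agent.X321.HS
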