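import Pool.Agent.X321.HS.Sym

set_option autoImplicit false

/-!
# Goncharov's relation groups and the place of the field of generalized power series
-/

namespace Pool.Agent.X321.HS

open Polynomial H39Gon Filter Topology
open scoped TensorProduct

section rel

variable {K : Type} [Field K]

/-- the place on `ℤ[P^1]` -/
noncomputable def sp : ZP (LL K) →ₗ[ℤ] ZP K := Finsupp.lmapDomain ℤ ℤ plP

theorem sp_single (x : P1 (LL K)) (c : ℤ) :
    sp (Finsupp.single x c) = Finsupp.single (plP x) c := by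
  rw [sp, Finsupp.lmapDomain_apply, Finsupp.mapDomain_single]

/-- the leading coefficient -/
noncomputable def lcH : (LL K)ˣ →* Kˣ where
  toFun y := Units.mk0 (y : LL K).leadingCoeff (HahnSeries.leadingCoeff_ne_zero.2 y.ne_zero)
  map_one' := by
    ext
    rw [Units.val_mk0, Units.val_one, Units.val_one, HahnSeries.leadingCoeff_one]
  map_mul' x y := by
    ext
    rw [Units.val_mk0, Units.val_mul, Units.val_mul, Units.val_mk0, Units.val_mk0,
      HahnSeries.leadingCoeff_mul]

/-- the leading coefficient -/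
noncomputable def lcU : UV (LL K) →ₗ[ℤ] UV K := (MonoidHom.toAdditive lcH).toIntLinearMap

theorem cl_zero' : cl (0 : K) = 0 := by rw [cl, dif_pos rfl]

theorem cl_one' : cl (1 : K) = 0 := by
  rw [cl, dif_neg one_ne_zero]
  have : Units.mk0 (1 : K) one_ne_zero = 1 := by ext; rfl
  rw [this]
  rfl

theorem cl_mul' {a b : K} (ha : a ≠ 0) (hb : b ≠ 0) : cl (a * b) = cl a + cl b := by
  rw [cl, dif_neg (mul_ne_zero ha hb), cl, dif_neg ha, cl, dif_neg hb, ← ofMul_mul]
  congr 1
  ext
  rfl

theorem lcU_cl (x : LL K) : lcU (cl x) = cl x.leadingCoeff := by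
  by_cases h : x = 0
  · rw [h, cl_zero', map_zero, HahnSeries.leadingCoeff_zero, cl_zero']
  · have h' := HahnSeries.leadingCoeff_ne_zero.2 h
    rw [cl, dif_neg h, cl, dif_neg h']
    rfl

/-- the elements with a multiple in `S` -/
def sat {M : Type} [AddCommGroup M] (S : Submodule ℤ M) : Submodule ℤ M where
  carrier := {r | ∃ N : ℕ, 0 < N ∧ N • r ∈ S}
  add_mem' := by
    rintro a b ⟨N, hN, ha⟩ ⟨N', hN', hb⟩
    refine ⟨N * N', Nat.mul_pos hN hN', ?_⟩
    rw [smul_add]
    refine S.add_mem ?_ ?_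
    · rw [mul_comm, mul_smul]
      exact S.nsmul_mem ha _
    · rw [mul_smul]
      exact S.nsmul_mem hb _
  zero_mem' := ⟨1, one_pos, by rw [smul_zero]; exact S.zero_mem⟩
  smul_mem' := by
    rintro c a ⟨N, hN, ha⟩
    exact ⟨N, hN, by rw [smul_comm]; exact S.smul_mem c ha⟩

theorem mem_sat {M : Type} [AddCommGroup M] (S : Submodule ℤ M) (r : M) :
    r ∈ sat S ↔ ∃ N : ℕ, 0 < N ∧ N • r ∈ S := Iff.rfl

theorem le_sat {M : Type} [AddCommGroup M] (S : Submodule ℤ M) : S ≤ sat S :=
  fun r hr => ⟨1, one_pos, by rwa [one_smul]⟩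

theorem sat_of_nsmul {M : Type} [AddCommGroup M] {S : Submodule ℤ M} {r : M} {N : ℕ} (hN : 0 < N)
    (h : N • r ∈ S) : r ∈ sat S := ⟨N, hN, h⟩

/-! ### `δ_2` -/

theorem w2_left (b : UV K) : exteriorPower.ιMulti ℤ 2 ![(0 : UV K), b] = 0 :=
  (exteriorPower.ιMulti ℤ 2 (M := UV K)).map_coord_zero 0 rfl

theorem w2_right (a : UV K) : exteriorPower.ιMulti ℤ 2 ![a, (0 : UV K)] = 0 :=
  (exteriorPower.ιMulti ℤ 2 (M := UV K)).map_coord_zero 1 rfl

theorem w2_neg {a : K} (ha : a ≠ 0) :
    (2 : ℤ) • exteriorPower.ιMulti ℤ 2 ![cl (-a), cl a] = 0 := by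
  have h1 : cl (-a) = cl (-1) + cl a := by
    rw [← cl_mul' (neg_ne_zero.2 one_ne_zero) ha, neg_one_mul]
  have h2 : (2 : ℤ) • cl (-1 : K) = 0 := by
    rw [two_zsmul, ← cl_mul' (neg_ne_zero.2 one_ne_zero) (neg_ne_zero.2 one_ne_zero),
      neg_one_mul, neg_neg, cl_one']
  have h3 : exteriorPower.ιMulti ℤ 2 ![cl (-a), cl a] =
      exteriorPower.ιMulti ℤ 2 ![cl (-1), cl a] + exteriorPower.ιMulti ℤ 2 ![cl a, cl a] := by
    rw [h1]
    exact (exteriorPower.ιMulti ℤ 2 (M := UV K)).map_vecCons_add _ _ _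
  have h4 : exteriorPower.ιMulti ℤ 2 ![cl a, cl a] = 0 :=
    (exteriorPower.ιMulti ℤ 2 (M := UV K)).map_eq_zero_of_eq _ (i := 0) (j := 1) rfl
      (by decide)
  rw [h3, h4, add_zero]
  have h5 := (exteriorPower.ιMulti ℤ 2 (M := UV K)).map_vecCons_smul ![cl a] (2 : ℤ) (cl (-1))
  rw [h2] at h5
  exact h5.symm.trans (w2_left _)

theorem coeff_of_order {x : LL K} (h : x.order = 0) : x.coeff 0 = x.leadingCoeff := by
  rw [HahnSeries.leadingCoeff_eq, h]

/-- the four cases for the leading coefficient of `1 - x` -/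
theorem lead_one_sub (x : LL K) (hx : x ≠ 0) :
    (x.order < 0 → (1 - x).leadingCoeff = - x.leadingCoeff) ∧
    (0 < x.order → (1 - x).leadingCoeff = 1) ∧
    (x.order = 0 → x.leadingCoeff ≠ 1 → (1 - x).leadingCoeff = 1 - x.leadingCoeff) := by
  have h1 : ∀ g : ℝ, (1 : LL K).coeff g = if g = 0 then 1 else 0 := by
    intro g
    rw [HahnSeries.coeff_one]
  have hl : x.coeff x.order = x.leadingCoeff := HahnSeries.leadingCoeff_eq.symm
  refine ⟨fun h => ?_, fun h => ?_, fun h hne => ?_⟩
  · have e := order_eq (x := 1 - x) (g := x.order) (by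
      rw [HahnSeries.coeff_sub, h1, if_neg h.ne, zero_sub, hl]
      exact neg_ne_zero.2 (HahnSeries.leadingCoeff_ne_zero.2 hx)) (fun g hg => by
      rw [HahnSeries.coeff_sub, h1, if_neg (hg.trans h).ne,
        HahnSeries.coeff_eq_zero_of_lt_order hg, sub_zero])
    rw [e.2, HahnSeries.coeff_sub, h1, if_neg h.ne, zero_sub, hl]
  · have e := order_eq (x := 1 - x) (g := 0) (by
      rw [HahnSeries.coeff_sub, h1, if_pos rfl, HahnSeries.coeff_eq_zero_of_lt_order h, sub_zero]
      exact one_ne_zero) (fun g hg => by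
      rw [HahnSeries.coeff_sub, h1, if_neg hg.ne,
        HahnSeries.coeff_eq_zero_of_lt_order (hg.trans h), sub_zero])
    rw [e.2, HahnSeries.coeff_sub, h1, if_pos rfl, HahnSeries.coeff_eq_zero_of_lt_order h, sub_zero]
  · have e := order_eq (x := 1 - x) (g := 0) (by
      rw [HahnSeries.coeff_sub, h1, if_pos rfl, coeff_of_order h]
      exact sub_ne_zero.2 hne.symm) (fun g hg => by
      rw [HahnSeries.coeff_sub, h1, if_neg hg.ne,
        HahnSeries.coeff_eq_zero_of_lt_order (by rwa [h]), sub_zero])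
    rw [e.2, HahnSeries.coeff_sub, h1, if_pos rfl, coeff_of_order h]

theorem sp_delta2 (α : ZP (LL K)) :
    (2 : ℤ) • delta2 K (sp α) = (2 : ℤ) • exteriorPower.map 2 lcU (delta2 (LL K) α) := by
  induction α using Finsupp.induction_linear with
  | zero => rw [map_zero, map_zero, map_zero, map_zero]
  | add a b ha hb => rw [map_add, map_add, map_add, map_add, smul_add, smul_add, ha, hb]
  | single x c =>
    rw [sp_single, delta2, delta2, Finsupp.linearCombination_single,
      Finsupp.linearCombination_single, map_zsmul, smul_comm, smul_comm (2 : ℤ) c]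
    congr 1
    cases x with
    | none =>
      change (2 : ℤ) • (0 : ⋀[ℤ]^2 (UV K)) = (2 : ℤ) • exteriorPower.map 2 lcU 0
      rw [map_zero]
    | some x =>
      simp only
      rw [exteriorPower.map_apply_ιMulti]
      have e : (lcU ∘ ![cl (1 - x), cl x] : Fin 2 → UV K) =
          ![cl (1 - x).leadingCoeff, cl x.leadingCoeff] := by
        funext i
        fin_cases i
        · exact lcU_cl _
        · exact lcU_cl _
      rw [e]
      by_cases hx : x = 0
      · subst hx
        rw [plP, pl_zero, sub_zero, HahnSeries.leadingCoeff_one, HahnSeries.leadingCoeff_zero]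
        simp only [sub_zero]
      · obtain ⟨l1, l2, l3⟩ := lead_one_sub x hx
        rcases lt_trichotomy x.order 0 with h | h | h
        · rw [plP, pl_neg h, l1 h, w2_neg (HahnSeries.leadingCoeff_ne_zero.2 hx)]
          simp only [smul_zero]
        · rw [plP, pl_unit h]
          by_cases hne : x.leadingCoeff = 1
          · simp only [hne]
            rw [cl_one', w2_right, w2_right]
          · rw [l3 h hne]
        · rw [plP, pl_pos h, l2 h]
          simp only
          rw [cl_one', cl_zero', w2_right, w2_left]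

/-! ### `δ_n`, `n ≥ 3` -/

theorem sp_deltaS (S : Submodule ℤ (ZP (LL K))) (S' : Submodule ℤ (ZP K))
    (hS : S ≤ (sat S').comap sp) (h0 : Finsupp.single (some 0) 1 ∈ S')
    (hi : Finsupp.single none 1 ∈ S') (α : ZP (LL K)) :
    deltaS K (sat S') (sp α) =
      TensorProduct.map (Submodule.mapQ S (sat S') sp hS) lcU (deltaS (LL K) S α) := by
  induction α using Finsupp.induction_linear with
  | zero => rw [map_zero, map_zero, map_zero, map_zero]
  | add a b ha hb => rw [map_add, map_add, map_add, map_add, ha, hb]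
  | single x c =>
    rw [sp_single]
    cases x with
    | none => rw [plP, rm_deltaS_none, rm_deltaS_none, map_zero]
    | some x =>
      rw [rm_deltaS_some, map_zsmul, TensorProduct.map_tmul, lcU_cl, Submodule.mkQ_apply,
        Submodule.mapQ_apply, sp_single]
      by_cases hx : x = 0
      · subst hx
        rw [plP, pl_zero, rm_deltaS_some, HahnSeries.leadingCoeff_zero, cl_zero',
          TensorProduct.tmul_zero, TensorProduct.tmul_zero]
      · rcases lt_trichotomy x.order 0 with h | h | h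
        · rw [plP, pl_neg h, rm_deltaS_none, (Submodule.Quotient.mk_eq_zero _).2 (le_sat S' hi),
            TensorProduct.zero_tmul, smul_zero]
        · rw [plP, pl_unit h, rm_deltaS_some, Submodule.mkQ_apply]
        · rw [plP, pl_pos h, rm_deltaS_some, cl_zero', TensorProduct.tmul_zero,
            (Submodule.Quotient.mk_eq_zero _).2 (le_sat S' h0), TensorProduct.zero_tmul]

theorem tors_aux {M V : Type} [AddCommGroup M] [AddCommGroup V] (S : Submodule ℤ M)
    (w : LinearMap.ker (Submodule.factor (le_sat S)) ⊗[ℤ] V) : ∃ N : ℕ, 0 < N ∧ N • w = 0 := by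
  induction w using TensorProduct.induction_on with
  | zero => exact ⟨1, one_pos, by rw [smul_zero]⟩
  | add x y hx hy =>
    obtain ⟨N, hN, h1⟩ := hx
    obtain ⟨N', hN', h2⟩ := hy
    refine ⟨N * N', Nat.mul_pos hN hN', ?_⟩
    rw [smul_add, mul_smul, mul_smul, h2, smul_zero, add_zero, smul_comm, h1, smul_zero]
  | tmul k v =>
    obtain ⟨k, hk⟩ := k
    obtain ⟨m, rfl⟩ := Submodule.Quotient.mk_surjective _ k
    rw [LinearMap.mem_ker] at hk
    change (Submodule.Quotient.mk m : M ⧸ sat S) = 0 at hk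
    rw [Submodule.Quotient.mk_eq_zero] at hk
    obtain ⟨N, hN, hm⟩ := hk
    refine ⟨N, hN, ?_⟩
    have h0 : N • (⟨Submodule.Quotient.mk m, hk⟩ :
        LinearMap.ker (Submodule.factor (le_sat S))) = 0 := by
      apply Subtype.ext
      change N • (Submodule.Quotient.mk m : M ⧸ S) = 0
      rw [← Submodule.Quotient.mk_smul, Submodule.Quotient.mk_eq_zero]
      exact hm
    rw [TensorProduct.smul_tmul', h0, TensorProduct.zero_tmul]

theorem deltaS_factor (S : Submodule ℤ (ZP K)) (β : ZP K) :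
    LinearMap.rTensor (UV K) (Submodule.factor (le_sat S)) (deltaS K S β) =
      deltaS K (sat S) β := by
  induction β using Finsupp.induction_linear with
  | zero => rw [map_zero, map_zero, map_zero]
  | add a b ha hb => rw [map_add, map_add, map_add, ha, hb]
  | single x c =>
    cases x with
    | none => rw [rm_deltaS_none, rm_deltaS_none, map_zero]
    | some x =>
      rw [rm_deltaS_some, rm_deltaS_some, map_zsmul, LinearMap.rTensor_tmul]
      rfl

theorem deltaS_sat (S : Submodule ℤ (ZP K)) (β : ZP K) (h : deltaS K (sat S) β = 0) :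
    ∃ N : ℕ, 0 < N ∧ N • β ∈ LinearMap.ker (deltaS K S) := by
  have h1 := deltaS_factor S β
  rw [h] at h1
  have hex : Function.Exact (LinearMap.rTensor (UV K)
      (LinearMap.ker (Submodule.factor (le_sat S))).subtype)
      (LinearMap.rTensor (UV K) (Submodule.factor (le_sat S))) := by
    apply rTensor_exact
    · exact LinearMap.exact_subtype_ker_map _
    · exact Submodule.factor_surjective _
  obtain ⟨w, hw⟩ := (hex _).1 h1
  obtain ⟨N, hN, h2⟩ := tors_aux S w
  refine ⟨N, hN, ?_⟩
  rw [LinearMap.mem_ker, map_nsmul, ← hw, ← map_nsmul, h2, map_zero]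

/-! ### the relation groups -/

theorem comp3 {F : Type} [Field F] (φ : F →+* LL (RatFunc K)) (t : K) (α : ZP F) :
    specZ K t (sp (rmM φ α)) =
      Finsupp.mapDomain (fun x : P1 F => spec K t (plP (x.map φ))) α := by
  rw [specZ, sp, rmM, Finsupp.lmapDomain_apply, Finsupp.lmapDomain_apply,
    Finsupp.lmapDomain_apply, ← Finsupp.mapDomain_comp, ← Finsupp.mapDomain_comp]
  rfl

theorem comp4 (φ : RatFunc K →+* RatFunc K) {F : Type} [Field F] (ψ : F →+* LL (RatFunc K)) (t : K)
    (α : ZP F) : specZ K t (rmM φ (sp (rmM ψ α))) =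
      Finsupp.mapDomain (fun x : P1 F => spec K t ((plP (x.map ψ)).map φ)) α := by
  rw [specZ, sp, rmM, rmM, Finsupp.lmapDomain_apply, Finsupp.lmapDomain_apply,
    Finsupp.lmapDomain_apply, Finsupp.lmapDomain_apply, ← Finsupp.mapDomain_comp,
    ← Finsupp.mapDomain_comp, ← Finsupp.mapDomain_comp]
  rfl

theorem comp5 (t : LL K) (α : ZP (RatFunc (LL K))) : sp (specZ (LL K) t α) =
      Finsupp.mapDomain (fun x => plP (spec (LL K) t x)) α := by
  rw [specZ, sp, Finsupp.lmapDomain_apply, Finsupp.lmapDomain_apply, ← Finsupp.mapDomain_comp]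
  rfl

theorem specZ_tau {F : Type} [Field F] (t : F) (β : ZP (RatFunc F)) :
    specZ F t (rmM tau β) = specZ F (1 - t) β := by
  rw [specZ, rmM, specZ, Finsupp.lmapDomain_apply, Finsupp.lmapDomain_apply,
    Finsupp.lmapDomain_apply, ← Finsupp.mapDomain_comp]
  congr 1
  funext x
  exact spec_tau t x

theorem specZ_inv {F : Type} [Field F] (β : ZP (RatFunc F)) :
    specZ F 1 (rmM invR β) = specZ F 1 β := by
  rw [specZ, rmM, Finsupp.lmapDomain_apply, Finsupp.lmapDomain_apply,
    Finsupp.lmapDomain_apply, ← Finsupp.mapDomain_comp]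
  congr 1
  funext x
  exact spec_inv x

theorem sp_tau (α : ZP (RatFunc (LL K))) :
    sp (rmM (iota 0) (rmM tau α)) = rmM tau (sp (rmM (iota 0) α)) := by
  simp only [sp, rmM, Finsupp.lmapDomain_apply, ← Finsupp.mapDomain_comp]
  congr 1
  funext x
  change plP ((x.map tau).map (iota 0)) = (plP (x.map (iota 0))).map tau
  rw [← plP_hm]
  congr 1
  cases x with
  | none => rfl
  | some f => exact congrArg some (iota_tau f)

theorem rel_step (A : Submodule ℤ (ZP (RatFunc (LL K)))) (A' : Submodule ℤ (ZP (RatFunc K)))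
    (h1 : ∀ α ∈ A, ∀ γ : ℝ, ∃ N : ℕ, 0 < N ∧ N • sp (rmM (iota γ) α) ∈ A')
    (h2 : ∀ α ∈ A', rmM invR α ∈ A') (h3 : ∀ α ∈ A, rmM tau α ∈ A) (r : ZP (LL K))
    (hr : r ∈ relSpan (LL K) A) : sp r ∈ sat (relSpan K A') := by
  set S := sat (relSpan K A') with hS
  have eqv : ∀ β : ZP (RatFunc K), (∃ N : ℕ, 0 < N ∧ N • β ∈ A') →
      S.mkQ (specZ K 0 β) = S.mkQ (specZ K 1 β) := by
    rintro β ⟨N, hN, hβ⟩
    rw [← sub_eq_zero, ← map_sub, Submodule.mkQ_apply, Submodule.Quotient.mk_eq_zero]
    refine sat_of_nsmul hN ?_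
    rw [smul_sub, ← map_nsmul, ← map_nsmul]
    exact Submodule.subset_span (Or.inr ⟨_, hβ, rfl⟩)
  have hv : ∀ α ∈ A, S.mkQ (sp (specZ (LL K) 0 α)) =
      S.mkQ (specZ K 1 (sp (rmM (iota 0) α))) := by
    intro α hα
    set v : ℝ → (ZP K ⧸ S) := fun γ => S.mkQ (specZ K 1 (sp (rmM (iota γ) α))) with hvdef
    have hp : ∀ γ0 : ℝ, ∀ᶠ γ in 𝓝[>] γ0, v γ = v γ0 := by
      intro γ0
      have e1 := (Filter.eventually_all_finset α.support).2 fun x _ => plus x γ0
      filter_upwards [e1] with γ hγ
      have e2 : specZ K 1 (sp (rmM (iota γ) α)) = specZ K 0 (sp (rmM (iota γ0) α)) := by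
        rw [comp3, comp3]
        exact Finsupp.mapDomain_congr fun x hx => hγ x hx
      simp only [hvdef]
      rw [e2]
      exact eqv _ (h1 α hα γ0)
    have hm' : ∀ γ0 : ℝ, ∀ᶠ γ in 𝓝[<] γ0, v γ = v γ0 := by
      intro γ0
      have e1 := (Filter.eventually_all_finset α.support).2 fun x _ => minus x γ0
      filter_upwards [e1] with γ hγ
      have e2 : specZ K 1 (sp (rmM (iota γ) α)) =
          specZ K 0 (rmM invR (sp (rmM (iota γ0) α))) := by
        rw [comp3, comp4]
        exact Finsupp.mapDomain_congr fun x hx => hγ x hx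
      simp only [hvdef]
      rw [e2]
      obtain ⟨N, hN, hβ⟩ := h1 α hα γ0
      rw [eqv (rmM invR (sp (rmM (iota γ0) α))) ⟨N, hN, by
        rw [← map_nsmul]; exact h2 _ hβ⟩, specZ_inv]
    have hloc : IsLocallyConstant v := by
      rw [IsLocallyConstant.iff_eventually_eq]
      intro γ0
      rw [← nhdsNE_sup_pure, ← nhdsLT_sup_nhdsGT, eventually_sup, eventually_sup, eventually_pure]
      exact ⟨⟨hm' γ0, hp γ0⟩, rfl⟩
    have ht := (Filter.eventually_all_finset α.support).2 fun x _ => top x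
    obtain ⟨γ, hγ⟩ := ht.exists
    have e2 : specZ K 1 (sp (rmM (iota γ) α)) = sp (specZ (LL K) 0 α) := by
      rw [comp3, comp5]
      exact Finsupp.mapDomain_congr fun x hx => hγ x hx
    rw [← e2]
    exact hloc.apply_eq_of_preconnectedSpace γ 0
  have hle : relSpan (LL K) A ≤ S.comap sp := by
    unfold relSpan
    rw [Submodule.span_le]
    rintro β (hβ | ⟨α, hα, rfl⟩)
    · rw [SetLike.mem_coe, Submodule.mem_comap]
      rcases hβ with rfl | hβ
      · rw [sp_single, plP, pl_zero]
        exact le_sat _ (Submodule.subset_span (Or.inl (Or.inl rfl)))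
      · rw [Set.mem_singleton_iff] at hβ
        subst hβ
        rw [sp_single]
        exact le_sat _ (Submodule.subset_span (Or.inl (Or.inr rfl)))
    · rw [SetLike.mem_coe, Submodule.mem_comap, ← Submodule.Quotient.mk_eq_zero,
        ← Submodule.mkQ_apply, map_sub, map_sub, sub_eq_zero, hv α hα]
      have e1 := hv _ (h3 α hα)
      rw [specZ_tau, sub_zero, sp_tau, specZ_tau, sub_self, eqv _ (h1 α hα 0)] at e1
      exact e1.symm
  exact hle hr

theorem zero_mem_R (m : ℕ) : (Finsupp.single (some (0 : K)) 1 : ZP K) ∈ R (m + 2) K := by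
  cases m with
  | zero => exact Submodule.subset_span (Or.inl (Or.inl rfl))
  | succ m => exact Submodule.subset_span (Or.inl (Or.inl rfl))

theorem none_mem_R (m : ℕ) : (Finsupp.single (none : P1 K) 1 : ZP K) ∈ R (m + 2) K := by
  cases m with
  | zero => exact Submodule.subset_span (Or.inl (Or.inr rfl))
  | succ m => exact Submodule.subset_span (Or.inl (Or.inr rfl))

/-- specialization of Goncharov's relation groups -/
theorem rel_main (m : ℕ) : ∀ (K : Type) [Field K] (r : ZP (LL K)), r ∈ R (m + 2) (LL K) →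
    sp r ∈ sat (R (m + 2) K) := by
  induction m with
  | zero =>
    intro K _ r hr
    refine rel_step (LinearMap.ker (delta2 (RatFunc (LL K)))) (LinearMap.ker (delta2 (RatFunc K)))
      (fun α hα γ => ⟨2, two_pos, ?_⟩) (fun α hα => ?_) (fun α hα => ?_) r hr
    · rw [LinearMap.mem_ker] at hα ⊢
      rw [map_nsmul, ← natCast_zsmul]
      push_cast
      rw [sp_delta2, rm_delta2, hα, map_zero, map_zero, smul_zero]
    · rw [LinearMap.mem_ker] at hα ⊢
      rw [rm_delta2, hα, map_zero]
    · rw [LinearMap.mem_ker] at hα ⊢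
      rw [rm_delta2, hα, map_zero]
  | succ m ih =>
    intro K _ r hr
    refine rel_step (LinearMap.ker (deltaS (RatFunc (LL K)) (R (m + 2) (RatFunc (LL K)))))
      (LinearMap.ker (deltaS (RatFunc K) (R (m + 2) (RatFunc K))))
      (fun α hα γ => ?_) (fun α hα => ?_) (fun α hα => ?_) r hr
    · rw [LinearMap.mem_ker] at hα
      apply deltaS_sat
      rw [sp_deltaS (R (m + 2) (LL (RatFunc K))) (R (m + 2) (RatFunc K))
        (fun s hs => ih (RatFunc K) s hs) (zero_mem_R m) (none_mem_R m),
        rm_deltaS (iota γ) (R (m + 2) (RatFunc (LL K))) (R (m + 2) (LL (RatFunc K)))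
        (fun s hs => R_map (iota γ) m s hs), hα, map_zero, map_zero]
    · rw [LinearMap.mem_ker] at hα ⊢
      rw [rm_deltaS invR (R (m + 2) (RatFunc K)) (R (m + 2) (RatFunc K))
        (fun s hs => R_map invR m s hs), hα, map_zero]
    · rw [LinearMap.mem_ker] at hα ⊢
      rw [rm_deltaS tau (R (m + 2) (RatFunc (LL K))) (R (m + 2) (RatFunc (LL K)))
        (fun s hs => R_map tau m s hs), hα, map_zero]

end rel

end Pool.Agent.X321.HS
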