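import Pool.Agent.X321.HS.Rel
import Pool.Agent.TH358.GP.Funct

set_option autoImplicit false

/-!
# Retractions
-/

namespace Pool.Agent.X321.HS

open H39Gon Filter Topology
open scoped TensorProduct

/-- a degenerate pair of elements of `F^*` -/
def Deg {V : Type} [AddCommGroup V] (p q : V) : Prop := p = 0 ∨ q = 0 ∨ (2 : ℤ) • p = (2 : ℤ) • q

/-- a retraction of the complexes of `F'` to those of `F` -/
structure Retr {F F' : Type} [Field F] [Field F'] (φ : F →+* F') where
  P : P1 F' → P1 F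
  u : UV F' →ₗ[ℤ] UV F
  P_none : P none = none
  P_zero : P (some 0) = some 0
  P_one : P (some 1) = some 1
  P_map : ∀ x : P1 F, P (x.map φ) = x
  u_map : ∀ y, u (rmU φ y) = y
  cases : ∀ x : F', x ≠ 0 → P (some x) = none ∨ P (some x) = some 0 ∨
    ∃ a, a ≠ 0 ∧ P (some x) = some a ∧ u (cl x) = cl a
  wedge : ∀ x : F', x ≠ 0 → x ≠ 1 →
    (∃ a, a ≠ 0 ∧ a ≠ 1 ∧ P (some x) = some a ∧ u (cl (1 - x)) = cl (1 - a) ∧ u (cl x) = cl a) ∨
    ((P (some x) = none ∨ P (some x) = some 0 ∨ P (some x) = some 1) ∧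
      Deg (u (cl (1 - x))) (u (cl x)))
  rel : ∀ (m : ℕ) (r : ZP F'), r ∈ R (m + 2) F' → Finsupp.lmapDomain ℤ ℤ P r ∈ sat (R (m + 2) F)

theorem C_inj' {K : Type} [Field K] (a : K) (ha : a ≠ 0) :
    (HahnSeries.C a : LL K) ≠ 0 := (map_ne_zero _).2 ha

theorem retr_hahn (F : Type) [Field F] : Nonempty (Retr (HahnSeries.C : F →+* LL F)) := by
  refine ⟨{ P := plP, u := lcU, P_none := rfl, P_zero := pl_zero, P_one := ?_, P_map := ?_,
            u_map := ?_, cases := ?_, wedge := ?_, rel := ?_ }⟩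
  · change pl 1 = some 1
    rw [← map_one (HahnSeries.C : F →+* LL F)]
    exact pl_C 1
  · intro x
    cases x with
    | none => rfl
    | some a => exact pl_C a
  · intro y
    have h : y = cl ((y.toMul : Fˣ) : F) := by
      rw [cl, dif_neg (Units.ne_zero _), Units.mk0_val]
      rfl
    rw [h, rmU_cl, lcU_cl]
    congr 1
    rw [HahnSeries.C_apply, HahnSeries.leadingCoeff_of_single]
  · intro x hx
    rcases lt_trichotomy x.order 0 with h | h | h
    · exact Or.inl (pl_neg h)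
    · exact Or.inr (Or.inr ⟨x.leadingCoeff, HahnSeries.leadingCoeff_ne_zero.2 hx, pl_unit h,
        lcU_cl x⟩)
    · exact Or.inr (Or.inl (pl_pos h))
  · intro x hx _
    obtain ⟨l1, l2, l3⟩ := lead_one_sub x hx
    have ha := HahnSeries.leadingCoeff_ne_zero.2 hx
    rcases lt_trichotomy x.order 0 with h | h | h
    · refine Or.inr ⟨Or.inl (pl_neg h), Or.inr (Or.inr ?_)⟩
      rw [lcU_cl, lcU_cl, l1 h, two_zsmul, two_zsmul,
        ← cl_mul' (neg_ne_zero.2 ha) (neg_ne_zero.2 ha), ← cl_mul' ha ha, neg_mul_neg]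
    · by_cases hne : x.leadingCoeff = 1
      · refine Or.inr ⟨Or.inr (Or.inr ?_), Or.inr (Or.inl ?_)⟩
        · rw [plP, pl_unit h, hne]
        · rw [lcU_cl, hne, cl_one']
      · exact Or.inl ⟨x.leadingCoeff, ha, hne, pl_unit h, by rw [lcU_cl, l3 h hne], lcU_cl x⟩
    · refine Or.inr ⟨Or.inr (Or.inl (pl_pos h)), Or.inl ?_⟩
      rw [lcU_cl, l2 h, cl_one']
  · exact fun m r hr => rel_main m F r hr

theorem retr_comp {F F' F'' : Type} [Field F] [Field F'] [Field F''] (φ : F →+* F')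
    (φ' : F' →+* F'') (h1 : Nonempty (Retr φ)) (h2 : Nonempty (Retr φ')) :
    Nonempty (Retr (φ'.comp φ)) := by
  obtain ⟨S⟩ := h1
  obtain ⟨T⟩ := h2
  refine ⟨{ P := fun x => S.P (T.P x), u := S.u ∘ₗ T.u, P_none := ?_, P_zero := ?_, P_one := ?_,
            P_map := ?_, u_map := ?_, cases := ?_, wedge := ?_, rel := ?_ }⟩
  · rw [T.P_none, S.P_none]
  · rw [T.P_zero, S.P_zero]
  · rw [T.P_one, S.P_one]
  · intro x
    have e : x.map (φ'.comp φ) = (x.map φ).map φ' := by cases x <;> rfl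
    rw [e, T.P_map, S.P_map]
  · intro y
    have e : rmU (φ'.comp φ) y = rmU φ' (rmU φ y) := rfl
    rw [e, LinearMap.comp_apply, T.u_map, S.u_map]
  · intro x hx
    rcases T.cases x hx with h | h | ⟨a, ha, h, hu⟩
    · left
      rw [h, S.P_none]
    · right; left
      rw [h, S.P_zero]
    · rcases S.cases a ha with h' | h' | ⟨b, hb, h', hu'⟩
      · left
        rw [h, h']
      · right; left
        rw [h, h']
      · right; right
        exact ⟨b, hb, by rw [h, h'], by rw [LinearMap.comp_apply, hu, hu']⟩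
  · intro x hx hx1
    rcases T.wedge x hx hx1 with ⟨a, ha, ha1, h, hu, hu'⟩ | ⟨h, hd⟩
    · rcases S.wedge a ha ha1 with ⟨b, hb, hb1, k, ku, ku'⟩ | ⟨k, kd⟩
      · exact Or.inl ⟨b, hb, hb1, by rw [h, k], by rw [LinearMap.comp_apply, hu, ku],
          by rw [LinearMap.comp_apply, hu', ku']⟩
      · refine Or.inr ⟨by rw [h]; exact k, ?_⟩
        rw [LinearMap.comp_apply, LinearMap.comp_apply, hu, hu']
        exact kd
    · refine Or.inr ⟨?_, ?_⟩
      · rcases h with h | h | h
        · left; rw [h, S.P_none]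
        · right; left; rw [h, S.P_zero]
        · right; right; rw [h, S.P_one]
      · rw [LinearMap.comp_apply, LinearMap.comp_apply]
        rcases hd with hd | hd | hd
        · left; rw [hd, map_zero]
        · right; left; rw [hd, map_zero]
        · right; right; rw [← map_zsmul S.u, ← map_zsmul S.u, hd]
  · intro m r hr
    obtain ⟨N, hN, h⟩ := T.rel m r hr
    obtain ⟨N', hN', h'⟩ := S.rel m _ h
    refine ⟨N' * N, Nat.mul_pos hN' hN, ?_⟩
    rw [map_nsmul] at h'
    rw [mul_smul]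
    have e : Finsupp.lmapDomain ℤ ℤ (fun x => S.P (T.P x)) r =
        Finsupp.lmapDomain ℤ ℤ S.P (Finsupp.lmapDomain ℤ ℤ T.P r) := by
      rw [Finsupp.lmapDomain_apply, Finsupp.lmapDomain_apply, Finsupp.lmapDomain_apply,
        ← Finsupp.mapDomain_comp]
      rfl
    rw [e]
    exact h'

theorem retr_sub {F F' F'' : Type} [Field F] [Field F'] [Field F''] (φ : F →+* F')
    (φ' : F' →+* F'') (h : Nonempty (Retr (φ'.comp φ))) : Nonempty (Retr φ) := by
  obtain ⟨S⟩ := h
  refine ⟨{ P := fun x => S.P (x.map φ'), u := S.u ∘ₗ rmU φ', P_none := S.P_none, P_zero := ?_,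
            P_one := ?_, P_map := ?_, u_map := ?_, cases := ?_, wedge := ?_, rel := ?_ }⟩
  · rw [Option.map_some, map_zero, S.P_zero]
  · rw [Option.map_some, map_one, S.P_one]
  · intro x
    have e : x.map (φ'.comp φ) = (x.map φ).map φ' := by cases x <;> rfl
    rw [← e, S.P_map]
  · intro y
    exact S.u_map y
  · intro x hx
    have h := S.cases (φ' x) ((map_ne_zero φ').2 hx)
    rw [Option.map_some, LinearMap.comp_apply, rmU_cl]
    exact h
  · intro x hx hx1
    have h := S.wedge (φ' x) ((map_ne_zero φ').2 hx)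
      (fun h => hx1 (φ'.injective (by rw [h, map_one])))
    rw [Option.map_some, LinearMap.comp_apply, LinearMap.comp_apply, rmU_cl, rmU_cl, map_sub,
      map_one]
    exact h
  · intro m r hr
    have h := S.rel m _ (R_map φ' m r hr)
    have e : Finsupp.lmapDomain ℤ ℤ (fun x => S.P (x.map φ')) r =
        Finsupp.lmapDomain ℤ ℤ S.P (Finsupp.lmapDomain ℤ ℤ (Option.map φ') r) := by
      rw [Finsupp.lmapDomain_apply, Finsupp.lmapDomain_apply, Finsupp.lmapDomain_apply,
        ← Finsupp.mapDomain_comp]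
      rfl
    rw [e]
    exact h

/-- The smallest class of homomorphisms of fields `F → F'` which contains the embeddings of `F` in
the field of generalized power series with real exponents over `F` and which is closed under
composition and under passing to intermediate fields `F → F' → F''`. -/
inductive PlaceExt : ∀ {F F' : Type} [Field F] [Field F'], (F →+* F') → Prop
  | hahn (F : Type) [Field F] : PlaceExt (HahnSeries.C : F →+* HahnSeries ℝ F)
  | comp {F F' F'' : Type} [Field F] [Field F'] [Field F''] (φ : F →+* F') (φ' : F' →+* F'') :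
      PlaceExt φ → PlaceExt φ' → PlaceExt (φ'.comp φ)
  | sub {F F' F'' : Type} [Field F] [Field F'] [Field F''] (φ : F →+* F') (φ' : F' →+* F'') :
      PlaceExt (φ'.comp φ) → PlaceExt φ

theorem PlaceExt.retr {F F' : Type} [Field F] [Field F'] {φ : F →+* F'} (h : PlaceExt φ) :
    Nonempty (Retr φ) := by
  induction h with
  | hahn F => exact retr_hahn F
  | comp φ φ' _ _ h1 h2 => exact retr_comp φ φ' h1 h2
  | sub φ φ' _ h => exact retr_sub φ φ' h

/-! ### maps of the terms -/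

section terms

variable {F F' : Type} [Field F] [Field F'] {φ : F →+* F'} (T : Retr φ)

/-- `b ↦ (w ↦ 1 ⊗ (b ⊗ u w))` -/
noncomputable def pmT (m j : ℕ) :
    B (m + 2) F →ₗ[ℤ] ((⋀[ℤ]^j (UV F')) →ₗ[ℤ] TQ F (m + 2) j) where
  toFun b := (e1one (M := B (m + 2) F ⊗[ℤ] (⋀[ℤ]^j (UV F)))) ∘ₗ (e1tens b) ∘ₗ
    (exteriorPower.map j T.u)
  map_add' b b' := by ext w; simp [e1tens_add]
  map_smul' c b := by ext w; simp [e1tens_smul]

theorem pmT_apply (m j : ℕ) (x : P1 F) (y : Fin j → UV F') :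
    pmT T m j (bcl (m + 2) x) (exteriorPower.ιMulti ℤ j y) =
      tq F (m + 2) j x (fun i => T.u (y i)) := by
  change (e1one (M := B (m + 2) F ⊗[ℤ] (⋀[ℤ]^j (UV F)))) ((e1tens (bcl (m + 2) x))
    (exteriorPower.map j T.u (exteriorPower.ιMulti ℤ j y))) = _
  rw [exteriorPower.map_apply_ιMulti, e1tens_apply, e1one_apply]
  rfl

/-- the retraction on the terms -/
theorem exists_tm' (m j : ℕ) : ∃ S : TQ F' (m + 2) j →ₗ[ℚ] TQ F (m + 2) j,
    ∀ (x : P1 F') (y : Fin j → UV F'),
      S (tq F' (m + 2) j x y) = tq F (m + 2) j (T.P x) (fun i => T.u (y i)) := by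
  have h : ∀ r ∈ R (m + 2) F',
      ((pmT T m j) ∘ₗ (R (m + 2) F).mkQ ∘ₗ (Finsupp.lmapDomain ℤ ℤ T.P)) r = 0 := by
    intro r hr
    obtain ⟨N, hN, h1⟩ := T.rel m r hr
    have h2 : (R (m + 2) F).mkQ (N • Finsupp.lmapDomain ℤ ℤ T.P r) = 0 := by
      rw [Submodule.mkQ_apply, Submodule.Quotient.mk_eq_zero]
      exact h1
    have h3 : N • (((pmT T m j) ∘ₗ (R (m + 2) F).mkQ ∘ₗ (Finsupp.lmapDomain ℤ ℤ T.P)) r) = 0 := by
      rw [LinearMap.comp_apply, LinearMap.comp_apply, ← map_nsmul, ← map_nsmul, h2, map_zero]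
    apply LinearMap.ext
    intro w
    have h4 := congrArg (fun f : (⋀[ℤ]^j (UV F')) →ₗ[ℤ] TQ F (m + 2) j => f w) h3
    simp only [LinearMap.smul_apply, LinearMap.zero_apply] at h4
    rw [← Nat.cast_smul_eq_nsmul ℚ] at h4
    exact (smul_eq_zero.1 h4).resolve_left (Nat.cast_ne_zero.2 hN.ne')
  refine ⟨e1lift _ h, fun x y => ?_⟩
  rw [e1lift_apply, LinearMap.comp_apply, LinearMap.comp_apply, Finsupp.lmapDomain_apply,
    Finsupp.mapDomain_single]
  exact pmT_apply T m j (T.P x) y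

/-- the retraction on the last terms -/
theorem exists_lm' (j : ℕ) : ∃ S : LQ F' j →ₗ[ℚ] LQ F j,
    ∀ y : Fin j → UV F', S (lq F' j y) = lq F j (fun i => T.u (y i)) := by
  refine ⟨LinearMap.baseChange ℚ (exteriorPower.map j T.u), fun y => ?_⟩
  unfold lq
  rw [LinearMap.baseChange_tmul, exteriorPower.map_apply_ιMulti]
  rfl

theorem tq_none (m j : ℕ) (y : Fin j → UV F) : tq F (m + 2) j none y = 0 := by
  have h : bcl (m + 2) (none : P1 F) = 0 := by
    unfold bcl
    rw [Submodule.mkQ_apply, Submodule.Quotient.mk_eq_zero]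
    exact none_mem_R m
  unfold tq
  rw [h, TensorProduct.zero_tmul, TensorProduct.tmul_zero]

theorem tq_zero (m j : ℕ) (y : Fin j → UV F) : tq F (m + 2) j (some 0) y = 0 := by
  have h : bcl (m + 2) (some (0 : F)) = 0 := by
    unfold bcl
    rw [Submodule.mkQ_apply, Submodule.Quotient.mk_eq_zero]
    exact zero_mem_R m
  unfold tq
  rw [h, TensorProduct.zero_tmul, TensorProduct.tmul_zero]

theorem lq_deg (j : ℕ) (p q : UV F) (h : Deg p q) (y : Fin j → UV F) :
    lq F (j + 2) (Fin.cons p (Fin.cons q y)) = 0 := by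
  unfold lq
  rcases h with h | h | h
  · rw [(exteriorPower.ιMulti ℤ (j + 2) (M := UV F)).map_coord_zero 0 (by rw [Fin.cons_zero, h]),
      TensorProduct.tmul_zero]
  · rw [(exteriorPower.ιMulti ℤ (j + 2) (M := UV F)).map_coord_zero 1 (by
      rw [← Fin.succ_zero_eq_one, Fin.cons_succ, Fin.cons_zero, h]), TensorProduct.tmul_zero]
  · have h1 : (2 : ℤ) • exteriorPower.ιMulti ℤ (j + 2) (Fin.cons p (Fin.cons q y) :
        Fin (j + 2) → UV F) = 0 := by
      have e1 := (exteriorPower.ιMulti ℤ (j + 2) (M := UV F)).map_vecCons_smul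
        (Fin.cons q y : Fin (j + 1) → UV F) (2 : ℤ) p
      have e2 := (exteriorPower.ιMulti ℤ (j + 2) (M := UV F)).map_vecCons_smul
        (Fin.cons q y : Fin (j + 1) → UV F) (2 : ℤ) q
      rw [h] at e1
      have e3 : exteriorPower.ιMulti ℤ (j + 2) (Matrix.vecCons q (Fin.cons q y) :
        Fin (j + 2) → UV F) = 0 :=
        (exteriorPower.ιMulti ℤ (j + 2) (M := UV F)).map_eq_zero_of_eq _ (i := 0) (j := 1) rfl
          (by simp)
      rw [e3, smul_zero] at e2
      rw [e2] at e1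
      exact e1.symm
    have h2 : (1 : ℚ) ⊗ₜ[ℤ] exteriorPower.ιMulti ℤ (j + 2) (Fin.cons p (Fin.cons q y) :
        Fin (j + 2) → UV F) = ((1 / 2 : ℚ)) ⊗ₜ[ℤ] ((2 : ℤ) • exteriorPower.ιMulti ℤ (j + 2)
          (Fin.cons p (Fin.cons q y) : Fin (j + 2) → UV F)) := by
      rw [← TensorProduct.smul_tmul]
      congr 1
      norm_num
    rw [h2, h1, TensorProduct.tmul_zero]

end terms

end Pool.Agent.X321.HS
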