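import Pool.Agent.X321.HS.Asy

set_option autoImplicit false

/-!
# The substitutions `X ↦ 1/X` and `X ↦ 1 - X`
-/

namespace Pool.Agent.X321.HS

open Polynomial H39Gon Filter Topology

section sym

variable {K : Type} [Field K]

theorem alg_inj : Function.Injective (algebraMap K[X] (RatFunc K)) := IsFractionRing.injective _ _

theorem ratHom_ext {E : Type} [Field E] {f g : RatFunc K →+* E}
    (hC : ∀ a, f (RatFunc.C a) = g (RatFunc.C a)) (hX : f RatFunc.X = g RatFunc.X) : f = g := by
  have h : f.comp (algebraMap K[X] (RatFunc K)) = g.comp (algebraMap K[X] (RatFunc K)) := by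
    apply Polynomial.ringHom_ext
    · intro a
      rw [RingHom.comp_apply, RingHom.comp_apply, RatFunc.algebraMap_C, hC]
    · rw [RingHom.comp_apply, RingHom.comp_apply, RatFunc.algebraMap_X, hX]
  ext x
  rw [← RatFunc.num_div_denom x, map_div₀, map_div₀]
  have h1 := fun p => congrArg (fun φ : K[X] →+* E => φ p) h
  simp only [RingHom.comp_apply] at h1
  rw [h1, h1]

/-- polynomials: `X ↦ 1/X` -/
noncomputable def invP : K[X] →+* RatFunc K := eval₂RingHom RatFunc.C (RatFunc.X⁻¹)

theorem invP_eq (p : K[X]) : invP p =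
    algebraMap K[X] (RatFunc K) p.reverse / algebraMap K[X] (RatFunc K) (X ^ p.natDegree) := by
  have hX : (RatFunc.X : RatFunc K) ≠ 0 := RatFunc.X_ne_zero
  let _ : Invertible (RatFunc.X⁻¹ : RatFunc K) := invertibleOfNonzero (inv_ne_zero hX)
  have h := eval₂_reverse_mul_pow (RatFunc.C : K →+* RatFunc K) (RatFunc.X⁻¹) p
  have h1 : (⅟(RatFunc.X⁻¹ : RatFunc K)) = RatFunc.X := by
    rw [invOf_eq_inv, inv_inv]
  rw [h1] at h
  rw [invP, coe_eval₂RingHom, ← h, map_pow, RatFunc.algebraMap_X, inv_pow, div_eq_mul_inv]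
  congr 1
  have h2 : (eval₂RingHom (RatFunc.C : K →+* RatFunc K) RatFunc.X) =
      algebraMap K[X] (RatFunc K) := by
    apply Polynomial.ringHom_ext
    · intro a
      rw [coe_eval₂RingHom, eval₂_C, RatFunc.algebraMap_C]
    · rw [coe_eval₂RingHom, eval₂_X, RatFunc.algebraMap_X]
  rw [← h2]
  rfl

theorem invP_inj : Function.Injective (invP : K[X] →+* RatFunc K) := by
  rw [injective_iff_map_eq_zero]
  intro p hp
  rw [invP_eq, div_eq_zero_iff] at hp
  rcases hp with h | h
  · have h1 : p.reverse = 0 := alg_inj (by rw [h, map_zero])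
    exact reverse_eq_zero.1 h1
  · exact absurd (alg_inj (by rw [h, map_zero]) : (X ^ p.natDegree : K[X]) = 0)
      (pow_ne_zero _ X_ne_zero)

/-- `X ↦ 1/X` -/
noncomputable def invR : RatFunc K →+* RatFunc K :=
  IsFractionRing.lift (A := K[X]) invP_inj

theorem invR_alg (p : K[X]) : invR (algebraMap K[X] (RatFunc K) p) = invP p := by
  rw [invR, IsFractionRing.lift_algebraMap]

theorem invR_C (a : K) : invR (RatFunc.C a) = RatFunc.C a := by
  conv_lhs => rw [← RatFunc.algebraMap_C, invR_alg, invP, coe_eval₂RingHom, eval₂_C]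

theorem invR_X : invR (RatFunc.X : RatFunc K) = RatFunc.X⁻¹ := by
  conv_lhs => rw [← RatFunc.algebraMap_X, invR_alg, invP, coe_eval₂RingHom, eval₂_X]

theorem rev_one (p : K[X]) : p.reverse.eval 1 = p.eval 1 := by
  let _ : Invertible (1 : K) := invertibleOne
  have h := eval₂_reverse_mul_pow (RingHom.id K) (1 : K) p
  rw [one_pow, mul_one, invOf_one] at h
  exact h

theorem spec_inv (x : P1 (RatFunc K)) : spec K 1 (x.map invR) = spec K 1 x := by
  classical
  cases x with
  | none => rfl
  | some f =>
    have h1 : invR f = algebraMap K[X] (RatFunc K) (f.num.reverse * X ^ f.denom.natDegree) /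
        algebraMap K[X] (RatFunc K) (f.denom.reverse * X ^ f.num.natDegree) := by
      conv_lhs => rw [← f.num_div_denom]
      rw [map_div₀, invR_alg, invR_alg, invP_eq, invP_eq, map_mul, map_mul, div_div_div_eq,
        mul_comm (algebraMap K[X] (RatFunc K) (X ^ f.num.natDegree))]
    rw [Option.map_some, h1]
    have ep : (f.num.reverse * X ^ f.denom.natDegree : K[X]).eval 1 = f.num.eval 1 := by
      rw [eval_mul, eval_pow, eval_X, one_pow, mul_one, rev_one]
    have eq : (f.denom.reverse * X ^ f.num.natDegree : K[X]).eval 1 = f.denom.eval 1 := by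
      rw [eval_mul, eval_pow, eval_X, one_pow, mul_one, rev_one]
    by_cases h : f.denom.eval 1 = 0
    · have h2 : f.num.eval 1 ≠ 0 := by
        intro h3
        obtain ⟨u, v, huv⟩ := f.isCoprime_num_denom
        have h4 := congrArg (eval 1) huv
        rw [eval_add, eval_mul, eval_mul, h3, h, mul_zero, mul_zero, add_zero, eval_one] at h4
        exact zero_ne_one h4
      rw [spec_pole 1 _ _ (mul_ne_zero (fun h0 => f.denom_ne_zero (reverse_eq_zero.1 h0))
        (pow_ne_zero _ X_ne_zero)) (by rw [eq, h]) (by rwa [ep])]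
      simp only [spec, if_pos h]
    · rw [spec_fin 1 _ _ (by rwa [eq]), ep, eq]
      simp only [spec, if_neg h]

/-- polynomials: `X ↦ 1 - X` -/
noncomputable def tauP : K[X] →+* RatFunc K :=
  (algebraMap K[X] (RatFunc K)).comp (compRingHom (1 - X))

theorem tauP_inj : Function.Injective (tauP : K[X] →+* RatFunc K) := by
  rw [injective_iff_map_eq_zero]
  intro p hp
  have h1 : p.comp (1 - X) = 0 := alg_inj (by rw [map_zero]; exact hp)
  have h2 : (p.comp (1 - X)).comp (1 - X) = p := by
    rw [comp_assoc, sub_comp, one_comp, X_comp, sub_sub_cancel, comp_X]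
  rw [← h2, h1, zero_comp]

/-- `X ↦ 1 - X` -/
noncomputable def tau : RatFunc K →+* RatFunc K :=
  IsFractionRing.lift (A := K[X]) tauP_inj

theorem tau_alg (p : K[X]) :
    tau (algebraMap K[X] (RatFunc K) p) = algebraMap K[X] (RatFunc K) (p.comp (1 - X)) := by
  rw [tau, IsFractionRing.lift_algebraMap]
  rfl

theorem tau_C (a : K) : tau (RatFunc.C a) = RatFunc.C a := by
  rw [← RatFunc.algebraMap_C, tau_alg, C_comp]

theorem tau_X : tau (RatFunc.X : RatFunc K) = 1 - RatFunc.X := by
  rw [← RatFunc.algebraMap_X, tau_alg, X_comp, map_sub, map_one]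

theorem spec_tau (t0 : K) (x : P1 (RatFunc K)) :
    spec K t0 (x.map tau) = spec K (1 - t0) x := by
  classical
  cases x with
  | none => rfl
  | some f =>
    have h1 : tau f = algebraMap K[X] (RatFunc K) (f.num.comp (1 - X)) /
        algebraMap K[X] (RatFunc K) (f.denom.comp (1 - X)) := by
      conv_lhs => rw [← f.num_div_denom]
      rw [map_div₀, tau_alg, tau_alg]
    rw [Option.map_some, h1]
    have ev : ∀ p : K[X], (p.comp (1 - X)).eval t0 = p.eval (1 - t0) := by
      intro p
      rw [eval_comp, eval_sub, eval_one, eval_X]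
    by_cases h : f.denom.eval (1 - t0) = 0
    · have h2 : f.num.eval (1 - t0) ≠ 0 := by
        intro h3
        obtain ⟨u, v, huv⟩ := f.isCoprime_num_denom
        have h4 := congrArg (eval (1 - t0)) huv
        rw [eval_add, eval_mul, eval_mul, h3, h, mul_zero, mul_zero, add_zero, eval_one] at h4
        exact zero_ne_one h4
      rw [spec_pole t0 _ _ (fun h0 => f.denom_ne_zero (tauP_inj (by
        rw [map_zero]
        change algebraMap K[X] (RatFunc K) (f.denom.comp (1 - X)) = 0
        rw [h0, map_zero]))) (by rw [ev, h]) (by rwa [ev])]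
      simp only [spec, if_pos h]
    · rw [spec_fin t0 _ _ (by rwa [ev]), ev, ev]
      simp only [spec, if_neg h]

/-! ### compatibility with `iota` -/

theorem iota_C (γ : ℝ) (a : LL K) : iota γ (RatFunc.C a) = hm (RatFunc.C : K →+* RatFunc K) a := by
  rw [← RatFunc.algebraMap_C, iota, IsFractionRing.lift_algebraMap, iotaP, coe_eval₂RingHom,
    eval₂_C]

theorem iota_X (γ : ℝ) :
    iota γ (RatFunc.X : RatFunc (LL K)) = HahnSeries.single γ (RatFunc.X : RatFunc K) := by
  rw [← RatFunc.algebraMap_X, iota, IsFractionRing.lift_algebraMap, iotaP, coe_eval₂RingHom,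
    eval₂_X]

theorem iota_inv (γ : ℝ) (f : RatFunc (LL K)) : iota γ (invR f) = hm invR (iota (-γ) f) := by
  have h : (iota γ).comp (invR : RatFunc (LL K) →+* _) =
      (hm (invR : RatFunc K →+* _)).comp (iota (-γ)) := by
    apply ratHom_ext
    · intro a
      rw [RingHom.comp_apply, RingHom.comp_apply, invR_C, iota_C, iota_C]
      ext g
      rw [hm_coeff, hm_coeff, hm_coeff, invR_C]
    · rw [RingHom.comp_apply, RingHom.comp_apply, invR_X, map_inv₀, iota_X, iota_X,
        HahnSeries.inv_single, hm_single, invR_X]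
  exact congrArg (fun φ : RatFunc (LL K) →+* LL (RatFunc K) => φ f) h

theorem iota_tau (f : RatFunc (LL K)) : iota 0 (tau f) = hm tau (iota 0 f) := by
  have h : (iota 0).comp (tau : RatFunc (LL K) →+* _) =
      (hm (tau : RatFunc K →+* _)).comp (iota 0) := by
    apply ratHom_ext
    · intro a
      rw [RingHom.comp_apply, RingHom.comp_apply, tau_C, iota_C]
      ext g
      rw [hm_coeff, hm_coeff, hm_coeff, tau_C]
    · rw [RingHom.comp_apply, RingHom.comp_apply, tau_X, map_sub, map_one, iota_X, hm_single,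
        tau_X]
      have h1 : (1 : LL (RatFunc K)) = HahnSeries.C 1 := (map_one _).symm
      have h2 : ∀ b : RatFunc K, (HahnSeries.single (0 : ℝ) b : LL (RatFunc K)) =
        HahnSeries.C b := fun b => rfl
      rw [h1, h2, h2, ← map_sub]
  exact congrArg (fun φ : RatFunc (LL K) →+* LL (RatFunc K) => φ f) h

theorem plP_hm {K' : Type} [Field K'] (φ : K →+* K') (x : P1 (LL K)) :
    plP (x.map (hm φ)) = (plP x).map φ := by
  cases x with
  | none => rfl
  | some x => exact pl_hm φ x

/-- the values at `u = 1` for radii slightly smaller than `γ0` -/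
theorem minus (x : P1 (RatFunc (LL K))) (γ0 : ℝ) : ∀ᶠ γ in 𝓝[<] γ0,
    spec K 1 (plP (x.map (iota γ))) = spec K 0 ((plP (x.map (iota γ0))).map invR) := by
  have hmap : ∀ γ : ℝ, plP ((x.map invR).map (iota γ)) =
      (plP (x.map (iota (-γ)))).map (invR : RatFunc K →+* RatFunc K) := by
    intro γ
    rw [← plP_hm]
    congr 1
    cases x with
    | none => rfl
    | some f => exact congrArg some (iota_inv γ f)
  have h := plus (x.map invR) (-γ0)
  have h2 := (tendsto_neg_nhdsLT (a := γ0)).eventually h
  filter_upwards [h2] with γ hγ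
  rw [hmap, hmap, spec_inv, neg_neg, neg_neg] at hγ
  exact hγ

end sym

end Pool.Agent.X321.HS
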